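import Pool.Agent.Y868.TD.R2

/-! Products and sign patterns together. -/

set_option autoImplicit false

namespace Pool.Agent.Y868.TD

open Finset Filter
open Pool.Agent.H373R2.T7
open Pool.Agent.Y868.TA Pool.Agent.Y868.TE
open Pool.Agent.Y868.TC (bx bx_card fiber_count)

theorem final (k U K : ℕ) : ∃ C x0 : ℕ, ∀ x : ℕ, x0 ≤ x →
    ∀ D B : ℕ, Real.log x ^ C ≤ D → (D : ℝ) ≤ (x : ℝ) ^ K →
    (D : ℝ) * x ≤ B * Real.log x ^ K → (B : ℝ) ≤ D * x * Real.log x ^ K →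
    ∀ s : Fin k → ℕ → ℤ, (∀ i, ∀ m ∈ Icc 1 x, ((|s i m| : ℤ) : ℝ) ≤ B * x * Real.log x ^ K) →
    ∀ N : ℕ, (N : ℝ) ≤ Real.log x ^ K → ∀ w : ℕ → ℕ → ℝ, (∀ t m, |w t m| ≤ 1) →
    ∃ Bad ⊆ bx D B k, (#Bad : ℝ) ≤ ((D : ℝ) * B) ^ k / Real.log x ^ U ∧
      ∀ e ∈ bx D B k, e ∉ Bad → ∀ t < N, ∀ u v : ℕ, u ≤ v → v ≤ x →
        (∀ I : Finset (Fin k), I.Nonempty →
          |∑ m ∈ Ioc u v, w t m * ∏ i ∈ I, lam (fl s e i m)| ≤ x / Real.log x ^ U) ∧
        ∀ ε : Fin k → ℝ, (∀ i, ε i = 1 ∨ ε i = -1) →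
          |∑ m ∈ (Ioc u v).filter (fun m => ∀ i, lam (fl s e i m) = ε i), w t m - (1 / 2) ^ k * ∑ m ∈ Ioc u v, w t m| ≤
            x / Real.log x ^ U := by
  classical
  obtain ⟨C1, x1, h1⟩ := sysL k (U + 1) K
  obtain ⟨C2, x2, h2⟩ := patL k (U + 1) K
  obtain ⟨n1, h3⟩ := ev_L' 10
  refine ⟨max C1 C2, max x1 (max x2 (max n1 1)), fun x hx D B hD1 hD2 hDB hBD s hs N hN w hw => ?_⟩
  have hx1 : x1 ≤ x := (le_max_left _ _).trans hx
  have hx2 : x2 ≤ x := ((le_max_left _ _).trans (le_max_right _ _)).trans hx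
  have a1 := h3 x (((le_max_left _ _).trans ((le_max_right _ _).trans (le_max_right _ _))).trans hx)
  have hx0 : 1 ≤ x := (((le_max_right _ _).trans ((le_max_right _ _).trans (le_max_right _ _)))).trans hx
  have hL1' : 1 ≤ Real.log x := by linarith
  obtain ⟨Bad1, b1, b2, b3⟩ := h1 x hx1 D B ((pow_le_pow_right₀ hL1' (le_max_left _ _)).trans hD1) hD2 hDB hBD s hs N hN w hw
  obtain ⟨Bad2, c1, c2, c3⟩ := h2 x hx2 D B ((pow_le_pow_right₀ hL1' (le_max_right _ _)).trans hD1) hD2 hDB hBD s hs N hN w hw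
  set L := Real.log x with hL
  have hL0 : 0 < L := by linarith
  have hLp : ∀ n : ℕ, 0 < L ^ n := fun n => by positivity
  have hDB0 : (0 : ℝ) ≤ ((D : ℝ) * B) ^ k := by positivity
  have hxr : (0 : ℝ) ≤ x := Nat.cast_nonneg _
  have key : ∀ y : ℝ, 0 ≤ y → y / L ^ (U + 1) ≤ (1 / 2) * (y / L ^ U) := by
    intro y hy
    have e1 : y / L ^ (U + 1) = (1 / L) * (y / L ^ U) := by
      rw [pow_add L U 1, pow_one]
      have := (hLp U).ne'
      field_simp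
    rw [e1]
    apply mul_le_mul_of_nonneg_right _ (by positivity)
    exact one_div_le_one_div_of_le (by norm_num) (by linarith)
  have key2 : (x : ℝ) / L ^ (U + 1) ≤ x / L ^ U := by
    have e1 := key x hxr
    have e2 : 0 ≤ (x : ℝ) / L ^ U := by positivity
    linarith
  refine ⟨Bad1 ∪ Bad2, union_subset b1 c1, ?_, ?_⟩
  · have h4 : ((#(Bad1 ∪ Bad2) : ℕ) : ℝ) ≤ (#Bad1 : ℝ) + #Bad2 := by exact_mod_cast card_union_le _ _
    have e1 := key _ hDB0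
    linarith
  · intro e he hbad t ht u v huv hvx
    rw [mem_union, not_or] at hbad
    refine ⟨fun I hI => (b3 e he hbad.1 t (mem_range.2 ht) I hI u v huv hvx).trans key2, fun ε hε =>
      (c3 e he hbad.2 t (mem_range.2 ht) ε hε u v huv hvx).trans key2⟩

end Pool.Agent.Y868.TD
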