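import Pool.Agent.Y868.TE.L8
import Pool.Agent.Y868.TA.E1

/-! The engine for a bounded function with a level of distribution over all classes: major arcs. -/

set_option autoImplicit false

namespace Pool.Agent.Y868.TD

open Finset Filter
open Pool.Agent.H373R2.T7
open Pool.Agent.H807R2.Dav
open Pool.Agent.Y868.TA

/-- level of distribution over all residue classes -/
def BVF (F : ℕ → ℝ) : Prop := ∀ U : ℕ, ∃ (B : ℕ) (Y0 : ℕ), ∀ Y : ℕ, Y0 ≤ Y → ∀ K : ℕ,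
    (K : ℝ) ≤ Real.sqrt Y / Real.log Y ^ B → ∀ a : ℕ → ℕ,
    ∑ k ∈ Icc 1 K, |cs F Y k (a k)| ≤ Y / Real.log Y ^ U

theorem class_sumF (F : ℕ → ℝ) (hF : BVF F) (U : ℕ) : ∃ B Y0 : ℕ, ∀ X Y : ℕ, Y0 ≤ Y → Y ≤ X → X ≤ Y ^ 2 → ∀ x q : ℕ, 1 ≤ q →
    ((x * q : ℕ) : ℝ) ^ 2 ≤ Y / Real.log X ^ B → ∀ e : ℕ → ℤ,
    ∑ m ∈ Icc 1 x, ∑ r0 ∈ range q, |cs F Y (m * q) (n0 (e m) m q r0)| ≤ q * Y / Real.log X ^ U := by
  obtain ⟨B, Y1, h⟩ := hF (U + 1)
  obtain ⟨n1, hn1⟩ := ev_L' (2 ^ (U + 1) + 1)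
  refine ⟨2 * B, max Y1 (max n1 1), fun X Y hY hYX hXY x q hq hK e => ?_⟩
  have hY1 : Y1 ≤ Y := (le_max_left _ _).trans hY
  have hYn : n1 ≤ Y := ((le_max_left _ _).trans (le_max_right _ _)).trans hY
  have hYone : 1 ≤ Y := ((le_max_right _ _).trans (le_max_right _ _)).trans hY
  have a1 := hn1 Y hYn
  have hY0 : (0 : ℝ) < Y := by exact_mod_cast hYone
  have hX0 : (0 : ℝ) < X := by exact_mod_cast hYone.trans hYX
  have h2U : (0 : ℝ) < 2 ^ (U + 1) := by positivity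
  have hlY : 0 < Real.log Y := by linarith
  have hYX' : Real.log Y ≤ Real.log X := Real.log_le_log hY0 (by exact_mod_cast hYX)
  have hlX : 0 < Real.log X := by linarith
  have hXY' : Real.log X ≤ 2 * Real.log Y := by
    have h3 : Real.log X ≤ Real.log ((Y : ℝ) ^ 2) := Real.log_le_log hX0 (by exact_mod_cast hXY)
    rw [Real.log_pow] at h3
    push_cast at h3
    exact h3
  have hKc : ((x * q : ℕ) : ℝ) ≤ Real.sqrt Y / Real.log Y ^ B := by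
    have h3 : ((x * q : ℕ) : ℝ) ^ 2 ≤ (Real.sqrt Y / Real.log Y ^ B) ^ 2 := by
      rw [div_pow, Real.sq_sqrt hY0.le, ← pow_mul, mul_comm B 2]
      refine hK.trans ?_
      apply div_le_div_of_nonneg_left hY0.le (by positivity)
      exact pow_le_pow_left₀ hlY.le hYX' _
    exact (pow_le_pow_iff_left₀ (by positivity) (by positivity) two_ne_zero).1 h3
  rw [sum_comm]
  have h4 : ∀ r0 ∈ range q, ∑ m ∈ Icc 1 x, |cs F Y (m * q) (n0 (e m) m q r0)| ≤ Y / Real.log X ^ U := by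
    intro r0 _
    have h5 := h Y hY1 (x * q) hKc (fun k => n0 (e (k / q)) (k / q) q r0)
    have h6 : ∑ m ∈ Icc 1 x, |cs F Y (m * q) (n0 (e m) m q r0)| ≤
        ∑ k ∈ Icc 1 (x * q), |cs F Y k (n0 (e (k / q)) (k / q) q r0)| := by
      have h7 : ∑ m ∈ Icc 1 x, |cs F Y (m * q) (n0 (e m) m q r0)| =
          ∑ k ∈ (Icc 1 x).image (fun m => m * q), |cs F Y k (n0 (e (k / q)) (k / q) q r0)| := by
        rw [sum_image (by intro a _ b _ hab; exact Nat.eq_of_mul_eq_mul_right (by omega : 0 < q) hab)]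
        refine sum_congr rfl fun m _ => ?_
        rw [Nat.mul_div_cancel m (by omega : 0 < q)]
      rw [h7]
      apply sum_le_sum_of_subset_of_nonneg
      · intro k hk
        rw [mem_image] at hk
        obtain ⟨m, hm, rfl⟩ := hk
        rw [mem_Icc] at hm
        rw [mem_Icc]
        exact ⟨Nat.mul_pos hm.1 hq, Nat.mul_le_mul_right q hm.2⟩
      · intro _ _ _
        exact abs_nonneg _
    refine h6.trans (h5.trans ?_)
    calc (Y : ℝ) / Real.log Y ^ (U + 1) ≤ Y / (Real.log X / 2) ^ (U + 1) := by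
          apply div_le_div_of_nonneg_left hY0.le (by positivity)
          exact pow_le_pow_left₀ (by positivity) (by linarith) _
      _ = (2 ^ (U + 1) / Real.log X) * (Y / Real.log X ^ U) := by
          rw [div_pow, pow_succ (Real.log X) U]
          field_simp
      _ ≤ 1 * (Y / Real.log X ^ U) := by
          apply mul_le_mul_of_nonneg_right _ (by positivity)
          rw [div_le_one hlX]
          linarith
      _ = _ := one_mul _
  refine (sum_le_sum h4).trans (le_of_eq ?_)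
  rw [sum_const, card_range, nsmul_eq_mul, mul_div_assoc]

/-- the functions of `r` -/
noncomputable def GF (F : ℕ → ℝ) (s : ℕ → ℤ) (R m : ℕ) (r : ℤ) : ℝ := if |r| ≤ (R : ℤ) then F (s m + m * r).toNat else 0

/-- reindexing the transform -/
lemma Gh_shiftF (F : ℕ → ℝ) (s : ℕ → ℤ) (R m : ℕ) (θ : ℝ) :
    ‖Gh (GF F s R) R m θ‖ = ‖∑ j ∈ Icc 1 (2 * R + 1), ((F ((s m - m * (R + 1)) + m * j).toNat : ℝ) : ℂ) * ee ((j : ℝ) * θ)‖ := by
  have h1 : Gh (GF F s R) R m θ = ee (-((R + 1 : ℝ) * θ)) *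
      ∑ j ∈ Icc 1 (2 * R + 1), ((F ((s m - m * (R + 1)) + m * j).toNat : ℝ) : ℂ) * ee ((j : ℝ) * θ) := by
    unfold Gh
    have h2 : Icc (-(R : ℤ)) R = (Icc 1 (2 * R + 1)).image (fun j : ℕ => (j : ℤ) - (R + 1)) := by
      ext r
      rw [mem_Icc, mem_image]
      constructor
      · rintro ⟨h1, h2⟩
        refine ⟨(r + (R + 1)).toNat, ?_, ?_⟩
        · rw [mem_Icc]; omega
        · rw [Int.toNat_of_nonneg (by linarith)]; ring
      · rintro ⟨j, hj, rfl⟩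
        rw [mem_Icc] at hj
        omega
    rw [h2, sum_image (by intro a _ b _ h; simpa using h), mul_sum]
    refine sum_congr rfl fun j hj => ?_
    rw [mem_Icc] at hj
    have h3 : |(j : ℤ) - (R + 1)| ≤ (R : ℤ) := by rw [abs_le]; omega
    have h4 : GF F s R m ((j : ℤ) - (R + 1)) = F ((s m - m * (R + 1)) + m * j).toNat := by
      unfold GF
      rw [if_pos h3]
      congr 2
      ring
    rw [h4]
    have h5 : ee ((((j : ℤ) - (R + 1) : ℤ) : ℝ) * θ) = ee (-((R + 1 : ℝ) * θ)) * ee ((j : ℝ) * θ) := by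
      rw [← ee_add]; congr 1; push_cast; ring
    rw [h5]; ring
  rw [h1, norm_mul, norm_ee, one_mul]

/-- one transform near a fraction -/
lemma Gh_leF (F : ℕ → ℝ) (hF0 : F 0 = 0) (s : ℕ → ℤ) (R m q u J H0 : ℕ) (hm : 1 ≤ m) (hq : 1 ≤ q) (hH : 1 ≤ H0)
    (hX : |s m| + (m : ℤ) * R ≤ ((J * H0 : ℕ) : ℤ)) (M : ℝ) (hM : ∀ n, n ≤ J * H0 → |F n| ≤ M) (hM0 : 0 ≤ M)
    (θ δ : ℝ) (hθ : |θ - (u : ℝ) / q| ≤ δ) :
    ‖Gh (GF F s R) R m θ‖ ≤ (1 + 7 * (2 * R + 1) * δ) * (2 * ∑ r0 ∈ range q,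
      (∑ i ∈ Icc 1 J, |cs F (i * H0) (m * q) (n0 (s m - m * (R + 1)) m q r0)| + ((H0 : ℝ) / (m * q : ℕ) + 1) * M)) := by
  have hδ : 0 ≤ δ := (abs_nonneg _).trans hθ
  rw [Gh_shiftF]
  set e : ℤ := s m - m * (R + 1) with he
  set γ : ℝ := θ - (u : ℝ) / q with hγ
  set f : ℕ → ℝ := fun j => F (e + m * j).toNat with hf
  set M0 : ℝ := 2 * ∑ r0 ∈ range q,
      (∑ i ∈ Icc 1 J, |cs F (i * H0) (m * q) (n0 e m q r0)| + ((H0 : ℝ) / (m * q : ℕ) + 1) * M) with hM0d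
  have hmq : 1 ≤ m * q := Nat.mul_pos hm hq
  have hm0 : (0 : ℤ) < m := by exact_mod_cast hm
  have hR0 : (0 : ℤ) ≤ R := Int.natCast_nonneg _
  have hM00 : 0 ≤ M0 := by
    rw [hM0d]
    have : 0 ≤ ∑ r0 ∈ range q,
      (∑ i ∈ Icc 1 J, |cs F (i * H0) (m * q) (n0 e m q r0)| + ((H0 : ℝ) / (m * q : ℕ) + 1) * M) :=
      sum_nonneg fun _ _ => add_nonneg (sum_nonneg fun _ _ => abs_nonneg _) (by positivity)
    linarith
  have hpart : ∀ y : ℕ, y ≤ 2 * R + 1 → ‖∑ j ∈ Icc 1 y, ((f j : ℝ) : ℂ) * ee (j * ((u : ℝ) / q))‖ ≤ M0 := by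
    intro y hy
    refine (mod_twist f y q u hq).trans ?_
    rw [hM0d, mul_sum]
    refine sum_le_sum fun r0 hr0 => ?_
    rw [mem_range] at hr0
    have h1 := prefix_class F hF0 e m q hm hq r0 hr0 y
    have h2 : ∑ n ∈ (Icc 1 y).filter (fun n => n % q = r0), f n =
        cs F (e + m * y).toNat (m * q) (n0 e m q r0) - cs F e.toNat (m * q) (n0 e m q r0) := h1
    rw [h2]
    have hc1 := abs_le.1 (le_refl |s m|)
    have hy' : (y : ℤ) ≤ 2 * R + 1 := by exact_mod_cast hy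
    have hY1 : (e + m * y).toNat ≤ J * H0 := by
      rw [Int.toNat_le]
      refine le_trans ?_ hX
      rw [he]
      have h3 : (m : ℤ) * y ≤ m * (2 * R + 1) := mul_le_mul_of_nonneg_left hy' hm0.le
      linarith [hc1.2]
    have hY2 : e.toNat ≤ J * H0 := by
      rw [Int.toNat_le]
      refine le_trans ?_ hX
      rw [he]
      have h3 : (0 : ℤ) ≤ (m : ℤ) * R := by positivity
      linarith [hc1.2]
    have g1 := grid_class F M J H0 (m * q) (n0 e m q r0) _ hM hM0 hmq hH hY1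
    have g2 := grid_class F M J H0 (m * q) (n0 e m q r0) _ hM hM0 hmq hH hY2
    refine (abs_sub _ _).trans ?_
    linarith
  have h1 := abel_ee (fun j => ((f j : ℝ) : ℂ) * ee (j * ((u : ℝ) / q))) γ M0 (2 * R + 1) hpart
  have h2 : ∑ j ∈ Icc 1 (2 * R + 1), ((F (e + m * j).toNat : ℝ) : ℂ) * ee ((j : ℝ) * θ) =
      ∑ j ∈ Icc 1 (2 * R + 1), (((f j : ℝ) : ℂ) * ee (j * ((u : ℝ) / q))) * ee (j * γ) := by
    apply sum_congr rfl
    intro j _
    rw [mul_assoc, ← ee_add]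
    congr 2
    rw [hγ]
    ring
  rw [h2]
  refine h1.trans ?_
  rw [mul_comm]
  apply mul_le_mul_of_nonneg_right _ hM00
  have h4 : ‖ee γ - 1‖ ≤ 7 * δ := by
    have h5 := dd_le γ
    unfold dd at h5
    rw [norm_sub_rev] at h5
    refine h5.trans ?_
    have hpi : Real.pi < 3.15 := Real.pi_lt_d2
    have h6 : 0 ≤ |γ| := abs_nonneg _
    nlinarith
  push_cast
  have h5 : (2 * (R : ℝ) + 1) * ‖ee γ - 1‖ ≤ (2 * R + 1) * (7 * δ) := mul_le_mul_of_nonneg_left h4 (by positivity)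
  linarith

/-- the sum of the transforms on the major arcs -/
theorem maj_sumF (F : ℕ → ℝ) (hF0 : F 0 = 0) (hF : BVF F) (U : ℕ) : ∃ B Y0 : ℕ, ∀ J H0 : ℕ, Y0 ≤ H0 → 1 ≤ J → J ≤ H0 → ∀ x Q0 R : ℕ,
    ((x * Q0 : ℕ) : ℝ) ^ 2 ≤ H0 / Real.log (J * H0 : ℕ) ^ B → ∀ s : ℕ → ℤ, (∀ m ∈ Icc 1 x, |s m| + (x : ℤ) * R ≤ ((J * H0 : ℕ) : ℤ)) →
    ∀ M : ℝ, (∀ n, n ≤ J * H0 → |F n| ≤ M) → 0 ≤ M → ∀ w : ℕ → ℝ, (∀ m, |w m| ≤ 1) →
    ∀ q u : ℕ, 1 ≤ q → q ≤ Q0 → ∀ θ δ : ℝ, |θ - (u : ℝ) / q| ≤ δ →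
    ∑ m ∈ Icc 1 x, |w m| * ‖Gh (GF F s R) R m θ‖ ≤ (1 + 7 * (2 * R + 1) * δ) * (2 *
      (J * (Q0 * (J * H0 : ℕ) / Real.log (J * H0 : ℕ) ^ U + x * Q0 * Real.log (J * H0 : ℕ)) +
        (H0 * (1 + Real.log x) + x * Q0) * M)) := by
  obtain ⟨B, Y0, h0⟩ := class_sumF F hF U
  refine ⟨B, max Y0 3, fun J H0 H0Y hJ hJH x Q0 R hK s hs M hM hM0 w hw q u hq hqQ θ δ hθ => ?_⟩
  have hH0 : 3 ≤ H0 := (le_max_right _ _).trans H0Y
  have hY0 : Y0 ≤ H0 := (le_max_left _ _).trans H0Y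
  set X := J * H0 with hX
  have hX1 : 1 ≤ X := Nat.mul_pos hJ (by omega)
  have hX3 : 3 ≤ X := by
    calc 3 ≤ H0 := hH0
      _ = 1 * H0 := (one_mul _).symm
      _ ≤ X := Nat.mul_le_mul_right _ hJ
  have hΛ1 : 1 ≤ Real.log X := by
    have h1 : Real.log 3 ≤ Real.log X := Real.log_le_log (by norm_num) (by exact_mod_cast hX3)
    have h2 : (1 : ℝ) ≤ Real.log 3 := by
      rw [Real.le_log_iff_exp_le (by norm_num)]
      exact Real.exp_one_lt_d9.le.trans (by norm_num)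
    linarith
  have hΛ0 : 0 < Real.log X := by linarith
  have hδ : 0 ≤ δ := (abs_nonneg _).trans hθ
  have hκ0 : 0 ≤ 1 + 7 * (2 * (R : ℝ) + 1) * δ := by positivity
  set e : ℕ → ℤ := fun m => s m - m * (R + 1) with he
  have hq0 : (0 : ℝ) < q := by exact_mod_cast hq
  have hqr : (q : ℝ) ≤ Q0 := by exact_mod_cast hqQ
  have hH0r : (0 : ℝ) < H0 := by exact_mod_cast (by omega : 0 < H0)
  have h1 : ∑ m ∈ Icc 1 x, |w m| * ‖Gh (GF F s R) R m θ‖ ≤ ∑ m ∈ Icc 1 x, ‖Gh (GF F s R) R m θ‖ :=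
    sum_le_sum fun m _ => mul_le_of_le_one_left (norm_nonneg _) (hw m)
  refine h1.trans ?_
  have h2 : ∀ m ∈ Icc 1 x, ‖Gh (GF F s R) R m θ‖ ≤ (1 + 7 * (2 * R + 1) * δ) * (2 * ∑ r0 ∈ range q,
      (∑ i ∈ Icc 1 J, |cs F (i * H0) (m * q) (n0 (e m) m q r0)| + ((H0 : ℝ) / (m * q : ℕ) + 1) * M)) := by
    intro m hm
    have hsm := hs m hm
    rw [mem_Icc] at hm
    have hmx : (m : ℤ) ≤ x := by exact_mod_cast hm.2
    refine Gh_leF F hF0 s R m q u J H0 hm.1 hq (by omega) ?_ M hM hM0 θ δ hθ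
    refine le_trans ?_ hsm
    have : (m : ℤ) * R ≤ x * R := mul_le_mul_of_nonneg_right hmx (Int.natCast_nonneg _)
    linarith
  refine (sum_le_sum h2).trans ?_
  rw [← mul_sum, ← mul_sum]
  apply mul_le_mul_of_nonneg_left _ hκ0
  apply mul_le_mul_of_nonneg_left _ (by norm_num)
  simp only [sum_add_distrib]
  apply add_le_add
  · have h3 : ∑ m ∈ Icc 1 x, ∑ r0 ∈ range q, ∑ i ∈ Icc 1 J, |cs F (i * H0) (m * q) (n0 (e m) m q r0)| =
        ∑ i ∈ Icc 1 J, ∑ m ∈ Icc 1 x, ∑ r0 ∈ range q, |cs F (i * H0) (m * q) (n0 (e m) m q r0)| := by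
      calc ∑ m ∈ Icc 1 x, ∑ r0 ∈ range q, ∑ i ∈ Icc 1 J, |cs F (i * H0) (m * q) (n0 (e m) m q r0)| =
          ∑ m ∈ Icc 1 x, ∑ i ∈ Icc 1 J, ∑ r0 ∈ range q, |cs F (i * H0) (m * q) (n0 (e m) m q r0)| :=
            sum_congr rfl fun m _ => sum_comm
        _ = _ := sum_comm
    rw [h3]
    have h4 : ∀ i ∈ Icc 1 J, ∑ m ∈ Icc 1 x, ∑ r0 ∈ range q, |cs F (i * H0) (m * q) (n0 (e m) m q r0)| ≤
        Q0 * X / Real.log X ^ U + x * Q0 * Real.log X := by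
      intro i hi
      rw [mem_Icc] at hi
      have hiH : H0 ≤ i * H0 := Nat.le_mul_of_pos_left _ hi.1
      have hiX : i * H0 ≤ X := Nat.mul_le_mul_right _ hi.2
      have hXi : X ≤ (i * H0) ^ 2 := by
        calc X = J * H0 := rfl
          _ ≤ H0 * H0 := Nat.mul_le_mul_right _ hJH
          _ ≤ (i * H0) * (i * H0) := Nat.mul_le_mul hiH hiH
          _ = (i * H0) ^ 2 := by ring
      have hiHr : (H0 : ℝ) ≤ ((i * H0 : ℕ) : ℝ) := by exact_mod_cast hiH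
      have hxq : ((x * q : ℕ) : ℝ) ≤ ((x * Q0 : ℕ) : ℝ) := by exact_mod_cast Nat.mul_le_mul_left x hqQ
      have hsq : ((x * q : ℕ) : ℝ) ^ 2 ≤ ((i * H0 : ℕ) : ℝ) / Real.log X ^ B := by
        calc ((x * q : ℕ) : ℝ) ^ 2 ≤ ((x * Q0 : ℕ) : ℝ) ^ 2 := pow_le_pow_left₀ (Nat.cast_nonneg _) hxq 2
          _ ≤ H0 / Real.log X ^ B := hK
          _ ≤ _ := div_le_div_of_nonneg_right hiHr (by positivity)
      have h5 := h0 X (i * H0) (hY0.trans hiH) hiX hXi x q hq hsq e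
      have h6 : (q : ℝ) * ((i * H0 : ℕ) : ℝ) / Real.log X ^ U ≤ Q0 * X / Real.log X ^ U := by
        apply div_le_div_of_nonneg_right _ (by positivity)
        have : ((i * H0 : ℕ) : ℝ) ≤ X := by exact_mod_cast hiX
        gcongr
      have h7 : (0 : ℝ) ≤ x * Q0 * Real.log X := by positivity
      linarith
    refine (sum_le_sum h4).trans ?_
    rw [sum_const, Nat.card_Icc, nsmul_eq_mul, Nat.add_sub_cancel]
  · have h3 : ∀ m ∈ Icc 1 x, ∑ r0 ∈ range q, ((H0 : ℝ) / (m * q : ℕ) + 1) * M ≤ (H0 * (1 / (m : ℝ)) + Q0) * M := by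
      intro m hm
      rw [mem_Icc] at hm
      have hm0 : (0 : ℝ) < m := by exact_mod_cast hm.1
      rw [sum_const, card_range, nsmul_eq_mul, ← mul_assoc]
      apply mul_le_mul_of_nonneg_right _ hM0
      push_cast
      have h4 : (q : ℝ) * ((H0 : ℝ) / (m * q) + 1) = H0 * (1 / (m : ℝ)) + q := by field_simp
      rw [h4]
      linarith
    have h4 : ∑ m ∈ Icc 1 x, (H0 * (1 / (m : ℝ)) + Q0) * M = (H0 * (∑ m ∈ Icc 1 x, 1 / (m : ℝ)) + x * Q0) * M := by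
      rw [← sum_mul, sum_add_distrib, ← mul_sum, sum_const, Nat.card_Icc, nsmul_eq_mul, Nat.add_sub_cancel]
    have h5 : (H0 * (∑ m ∈ Icc 1 x, 1 / (m : ℝ)) + x * Q0) * M ≤ (H0 * (1 + Real.log x) + x * Q0) * M := by
      have := harm_le x
      gcongr
    refine (sum_le_sum h3).trans ?_
    rw [h4]
    exact h5

lemma GF_sq (F : ℕ → ℝ) (hF1 : ∀ n, |F n| ≤ 1) (s : ℕ → ℤ) (R x : ℕ) :
    ∑ m ∈ Icc 1 x, ∑ r ∈ Icc (-(R : ℤ)) R, GF F s R m r ^ 2 ≤ x * (2 * R + 1) := by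
  have h1 : ∀ m ∈ Icc 1 x, ∑ r ∈ Icc (-(R : ℤ)) R, GF F s R m r ^ 2 ≤ (2 * R + 1) := by
    intro m _
    have h2 : ∀ r ∈ Icc (-(R : ℤ)) R, GF F s R m r ^ 2 ≤ 1 := by
      intro r hr
      rw [mem_Icc] at hr
      unfold GF
      rw [if_pos (abs_le.2 hr), ← sq_abs]
      exact pow_le_one₀ (abs_nonneg _) (hF1 _)
    refine (sum_le_sum h2).trans ?_
    rw [sum_const, nsmul_eq_mul, Int.card_Icc]
    have h3 : (((R : ℤ) + 1 - -(R : ℤ)).toNat : ℝ) = 2 * R + 1 := by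
      have : ((R : ℤ) + 1 - -(R : ℤ)).toNat = 2 * R + 1 := by omega
      rw [this]; push_cast; ring
    rw [h3, mul_one]
  refine (sum_le_sum h1).trans ?_
  rw [sum_const, Nat.card_Icc, nsmul_eq_mul, Nat.add_sub_cancel]

end Pool.Agent.Y868.TD
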