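import Pool.Agent.Y868.TD.M1

/-! The second moment over the box for a bounded function. -/

set_option autoImplicit false

namespace Pool.Agent.Y868.TD

open Finset Filter
open Pool.Agent.H373R2.T7
open Pool.Agent.H807R2.Dav
open Pool.Agent.Y868.TA

open Classical in
theorem secondF (F : ℕ → ℝ) (hF0 : F 0 = 0) (hF1 : ∀ n, |F n| ≤ 1) (hF : BVF F) (U K : ℕ) : ∃ C : ℕ, ∃ x0 : ℕ, ∀ x : ℕ, x0 ≤ x →
    ∀ D B : ℕ, Real.log x ^ C ≤ D → (D : ℝ) ≤ (x : ℝ) ^ K →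
    (D : ℝ) * x ≤ B * Real.log x ^ K → (B : ℝ) ≤ D * x * Real.log x ^ K →
    ∀ s : ℕ → ℤ, (∀ m ∈ Icc 1 x, ((|s m| : ℤ) : ℝ) ≤ B * x * Real.log x ^ K) → ∀ w : ℕ → ℝ, (∀ m, |w m| ≤ 1) →
    ∑ a ∈ Icc 1 D, ∑ b ∈ Icc 1 B, (∑ m ∈ Icc 1 x, w m * F (s m + m * ((a : ℤ) * m + (b : ℤ))).toNat) ^ 2 ≤
      D * B * x ^ 2 / Real.log x ^ U := by
  obtain ⟨C0, hC0⟩ : ∃ C0, C0 = K + U + 6 := ⟨_, rfl⟩
  obtain ⟨A1, hA1⟩ : ∃ A1, A1 = 3 * C0 + K + U + 2 := ⟨_, rfl⟩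
  obtain ⟨V, hV⟩ : ∃ V, V = A1 + 2 * K + C0 + 2 := ⟨_, rfl⟩
  obtain ⟨K3, hK3⟩ : ∃ K3, K3 = V + K + 3 := ⟨_, rfl⟩
  obtain ⟨U1, hU1⟩ : ∃ U1, U1 = V + K3 + C0 + K + 1 := ⟨_, rfl⟩
  obtain ⟨B', Y0, hY⟩ := maj_sumF F hF0 hF U1
  obtain ⟨n1, h1⟩ := ev_L' (1000 * ((K : ℝ) + 4) ^ (B' + 2))
  obtain ⟨n2, h2⟩ := evt_polylog (2 * K3 + 2 * V + C0 + 2 * K + 10)
  refine ⟨2 * C0 + K3 + B' + 1, max (max n1 n2) Y0, fun x hx D B hD1 hD2 hDB hBD s hs w hw => ?_⟩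
  have a1 := h1 x (le_trans (le_trans (le_max_left _ _) (le_max_left _ _)) hx)
  have a2 := h2 x (le_trans (le_trans (le_max_right _ _) (le_max_left _ _)) hx)
  have hxY : Y0 ≤ x := le_trans (le_max_right _ _) hx
  set L := Real.log x with hLd
  have hK0 : (0 : ℝ) ≤ K := Nat.cast_nonneg K
  have hK4 : (1 : ℝ) ≤ K + 4 := by linarith
  have hKp : ∀ n : ℕ, n ≤ B' + 2 → 1000 * ((K : ℝ) + 4) ^ n ≤ L := by
    intro n hn
    refine le_trans ?_ a1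
    have := pow_le_pow_right₀ hK4 hn
    linarith
  have hL1000 : 1000 ≤ L := by have := hKp 0 (by omega); simpa using this
  have hL0 : 0 < L := by linarith
  have hL1 : 1 ≤ L := by linarith
  have hLp : ∀ n : ℕ, 0 < L ^ n := fun n => by positivity
  have hLp1 : ∀ n : ℕ, 1 ≤ L ^ n := fun n => one_le_pow₀ hL1
  have hLL : ∀ {i j : ℕ}, i ≤ j → L ^ i ≤ L ^ j := fun h => pow_le_pow_right₀ hL1 h
  have hLx : ∀ n : ℕ, n ≤ 2 * K3 + 2 * V + C0 + 2 * K + 10 → L ^ n ≤ x := fun n hn => (hLL hn).trans a2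
  have hx1r : (1 : ℝ) ≤ x := (hLp1 _).trans a2
  have hx1 : 1 ≤ x := by exact_mod_cast hx1r
  have hx0 : (0 : ℝ) < x := by linarith
  have hD0 : (0 : ℝ) < D := (hLp _).trans_le hD1
  have hDC0 : L ^ C0 ≤ D := (hLL (by omega)).trans hD1
  -- `x ≤ B`
  have hxB : (x : ℝ) ≤ B := by
    have h3 : L ^ K ≤ D := (hLL (by omega)).trans hD1
    have h4 : L ^ K * x ≤ B * L ^ K := (mul_le_mul_of_nonneg_right h3 hx0.le).trans hDB
    have h5 : (x : ℝ) * L ^ K ≤ B * L ^ K := by linarith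
    exact le_of_mul_le_mul_right h5 (hLp K)
  have hB1 : (1 : ℝ) ≤ B := hx1r.trans hxB
  have hB0 : (0 : ℝ) < B := by linarith
  -- the parameters
  obtain ⟨J, hJd⟩ : ∃ J : ℕ, J = ⌊L ^ K3⌋₊ := ⟨_, rfl⟩
  have hJ1 : (J : ℝ) ≤ L ^ K3 := by rw [hJd]; exact Nat.floor_le (by positivity)
  have hJ2 : L ^ K3 / 2 ≤ J := by
    have := Nat.lt_floor_add_one (L ^ K3)
    rw [← hJd] at this
    have h3 : L ≤ L ^ K3 := le_self_pow₀ hL1 (by omega)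
    linarith
  have hJ1' : 1 ≤ J := by
    have h3 : L ≤ L ^ K3 := le_self_pow₀ hL1 (by omega)
    have : (1 : ℝ) ≤ J := by linarith
    exact_mod_cast this
  have hJ0 : (0 : ℝ) < J := by exact_mod_cast hJ1'
  obtain ⟨H0, hHd⟩ : ∃ H0 : ℕ, H0 = ⌈4 * (B * x * L ^ K) / J⌉₊ := ⟨_, rfl⟩
  have hBxL0 : (0 : ℝ) < B * x * L ^ K := by positivity
  have hH1 : 4 * (B * x * L ^ K) / J ≤ H0 := by rw [hHd]; exact Nat.le_ceil _
  have hH2 : (H0 : ℝ) ≤ 4 * (B * x * L ^ K) / J + 1 := by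
    rw [hHd]; exact (Nat.ceil_lt_add_one (by positivity)).le
  have hX1 : 4 * (B * x * L ^ K) ≤ ((J * H0 : ℕ) : ℝ) := by
    rw [div_le_iff₀ hJ0] at hH1
    push_cast
    linarith
  have hX2 : ((J * H0 : ℕ) : ℝ) ≤ 5 * (B * x * L ^ K) := by
    have h3 : (J : ℝ) * H0 ≤ J * (4 * (B * x * L ^ K) / J + 1) := mul_le_mul_of_nonneg_left hH2 hJ0.le
    have h4 : (J : ℝ) * (4 * (B * x * L ^ K) / J + 1) = 4 * (B * x * L ^ K) + J := by field_simp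
    have h5 : (J : ℝ) ≤ B * x * L ^ K := by
      calc (J : ℝ) ≤ L ^ K3 := hJ1
        _ ≤ x := hLx _ (by omega)
        _ ≤ B * x := le_mul_of_one_le_left hx0.le hB1
        _ ≤ B * x * L ^ K := le_mul_of_one_le_right (by positivity) (hLp1 K)
    push_cast
    linarith
  have hH3 : (H0 : ℝ) ≤ 8 * (B * x * L ^ K) / L ^ K3 + 1 := by
    refine hH2.trans ?_
    have h3 : 4 * (B * x * L ^ K) / J ≤ 4 * (B * x * L ^ K) / (L ^ K3 / 2) :=
      div_le_div_of_nonneg_left (by positivity) (by positivity) hJ2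
    have h4 : 4 * (B * x * L ^ K) / (L ^ K3 / 2) = 8 * (B * x * L ^ K) / L ^ K3 := by
      field_simp; ring
    linarith
  have hH4 : 4 * (D * x ^ 2) / L ^ K3 ≤ H0 := by
    refine le_trans ?_ hH1
    have h3 : 4 * (B * x * L ^ K) / L ^ K3 ≤ 4 * (B * x * L ^ K) / J :=
      div_le_div_of_nonneg_left (by positivity) hJ0 hJ1
    refine le_trans ?_ h3
    apply div_le_div_of_nonneg_right _ (hLp _).le
    have h4 : (D : ℝ) * x * x ≤ B * L ^ K * x := mul_le_mul_of_nonneg_right hDB hx0.le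
    nlinarith
  have hH5 : (x : ℝ) ≤ H0 := by
    refine le_trans ?_ hH4
    rw [le_div_iff₀ (hLp _)]
    have h3 : L ^ K3 ≤ D := (hLL (by omega)).trans hD1
    have h4 : (x : ℝ) * L ^ K3 ≤ x * D := mul_le_mul_of_nonneg_left h3 hx0.le
    have h5 : (x : ℝ) * D ≤ D * x ^ 2 := by
      have h6 : (x : ℝ) ≤ x ^ 2 := by nlinarith
      nlinarith
    have h6 : (0 : ℝ) < D * x ^ 2 := by positivity
    linarith
  have hJH : J ≤ H0 := by
    have h3 : (J : ℝ) ≤ H0 := (hJ1.trans (hLx _ (by omega))).trans hH5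
    exact_mod_cast h3
  have hYH : Y0 ≤ H0 := by
    have h3 : (x : ℝ) ≤ H0 := hH5
    have h4 : x ≤ H0 := by exact_mod_cast h3
    exact hxY.trans h4
  obtain ⟨X, hXd⟩ : ∃ X : ℕ, X = J * H0 := ⟨_, rfl⟩
  rw [← hXd] at hX1 hX2
  have hxX : (x : ℝ) ≤ X := by
    have h3 : (x : ℝ) ≤ B * x := le_mul_of_one_le_left hx0.le hB1
    have h4 : (B : ℝ) * x ≤ B * x * L ^ K := le_mul_of_one_le_right (by positivity) (hLp1 K)
    linarith
  have hX0 : (0 : ℝ) < X := by linarith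
  set Λ := Real.log X with hΛd
  have hΛ1 : L ≤ Λ := Real.log_le_log hx0 hxX
  have hΛ2 : Λ ≤ (K + 4) * L := by
    have h3 : (X : ℝ) ≤ (x : ℝ) ^ (K + 4) := by
      calc (X : ℝ) ≤ 5 * (B * x * L ^ K) := hX2
        _ ≤ 5 * ((D * x * L ^ K) * x * L ^ K) := by gcongr
        _ ≤ 5 * (((x : ℝ) ^ K * x * L ^ K) * x * L ^ K) := by gcongr
        _ = (x : ℝ) ^ (K + 2) * (5 * L ^ (2 * K)) := by rw [two_mul K, pow_add L K K, pow_add (x : ℝ) K 2]; ring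
        _ ≤ (x : ℝ) ^ (K + 2) * (x ^ 2) := by
            apply mul_le_mul_of_nonneg_left _ (by positivity)
            have h4 : 5 * L ^ (2 * K) ≤ L ^ (2 * K + 1) := by
              rw [pow_succ]
              have := hLp (2 * K)
              nlinarith
            have h5 := hLx (2 * K + 1) (by omega)
            nlinarith
        _ = (x : ℝ) ^ (K + 4) := by ring
    have h4 := Real.log_le_log hX0 h3
    rw [Real.log_pow] at h4
    push_cast at h4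
    exact h4
  have hΛ0 : 0 < Λ := by linarith
  have hxX' : x ≤ X := by exact_mod_cast hxX
  have hX1' : 1 ≤ X := hx1.trans hxX'
  obtain ⟨Q0, hQ0d⟩ : ∃ Q0 : ℕ, Q0 = ⌊L ^ C0⌋₊ := ⟨_, rfl⟩
  have hC0L : L ≤ L ^ C0 := le_self_pow₀ hL1 (by omega)
  have hQ01 : (Q0 : ℝ) ≤ L ^ C0 := by rw [hQ0d]; exact Nat.floor_le (by positivity)
  have hQ02 : L ^ C0 / 2 ≤ Q0 := by
    have := Nat.lt_floor_add_one (L ^ C0)
    rw [← hQ0d] at this
    linarith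
  have hQ0r : (1 : ℝ) ≤ Q0 := by linarith
  have hQ0n : 1 ≤ Q0 := by exact_mod_cast hQ0r
  obtain ⟨Q, hQd⟩ : ∃ Q : ℕ, Q = ⌊(x : ℝ) * D / L ^ C0⌋₊ := ⟨_, rfl⟩
  have hQa : (Q : ℝ) ≤ x * D / L ^ C0 := by rw [hQd]; exact Nat.floor_le (by positivity)
  have hQb : (x : ℝ) * D / L ^ C0 ≤ Q + 1 := by rw [hQd]; exact (Nat.lt_floor_add_one _).le
  have hQ1 : 1 ≤ Q := by
    rw [hQd]
    apply Nat.le_floor
    rw [Nat.cast_one, le_div_iff₀ (hLp _), one_mul]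
    calc L ^ C0 ≤ D := hDC0
      _ ≤ x * D := le_mul_of_one_le_left hD0.le hx1r
  have hQ1r : (1 : ℝ) ≤ Q := by exact_mod_cast hQ1
  have hlogQ : Real.log Q ≤ (K + 1) * L := by
    have h3 : (Q : ℝ) ≤ (x : ℝ) ^ (K + 1) := by
      calc (Q : ℝ) ≤ x * D / L ^ C0 := hQa
        _ ≤ x * D := div_le_self (by positivity) (hLp1 _)
        _ ≤ x * (x : ℝ) ^ K := by gcongr
        _ = (x : ℝ) ^ (K + 1) := by ring
    have h4 := Real.log_le_log (by linarith) h3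
    rw [Real.log_pow] at h4
    push_cast at h4
    exact h4
  obtain ⟨R, hRd⟩ : ∃ R : ℕ, R = ⌊3 * (B * L ^ K)⌋₊ := ⟨_, rfl⟩
  have hR1 : (R : ℝ) ≤ 3 * (B * L ^ K) := by rw [hRd]; exact Nat.floor_le (by positivity)
  have hR2 : 3 * (B * L ^ K) ≤ R + 1 := by rw [hRd]; exact (Nat.lt_floor_add_one _).le
  have hBLK : (B : ℝ) ≤ B * L ^ K := le_mul_of_one_le_right hB0.le (hLp1 K)
  have hBR : B ≤ 2 * R := by
    have h3 : (B : ℝ) ≤ 2 * R := by linarith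
    exact_mod_cast h3
  -- the size of the linear forms
  have hform : ∀ t : ℤ, ((|t| : ℤ) : ℝ) ≤ 3 * (B * L ^ K) → |t| ≤ (R : ℤ) := by
    intro t ht
    have h3 : ((|t| : ℤ) : ℝ) = ((t.natAbs : ℕ) : ℝ) := by
      rw [Nat.cast_natAbs]
    rw [h3] at ht
    have h4 : t.natAbs ≤ R := by
      rw [hRd]; exact Nat.le_floor ht
    rw [Int.abs_eq_natAbs]
    exact_mod_cast h4
  have ham : ∀ m ∈ Icc 1 x, ∀ a ∈ Icc 1 D, (a : ℝ) * m ≤ B * L ^ K := by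
    intro m hm a ha
    rw [mem_Icc] at hm ha
    have h3 : (a : ℝ) ≤ D := by exact_mod_cast ha.2
    have h4 : (m : ℝ) ≤ x := by exact_mod_cast hm.2
    calc (a : ℝ) * m ≤ D * x := by gcongr
      _ ≤ _ := hDB
  have hRf : ∀ m ∈ Icc 1 x, ∀ a ∈ Icc 1 D, |(fun _ : ℕ => (0 : ℤ)) m + (a : ℤ) * m| ≤ R := by
    intro m hm a ha
    apply hform
    have h4 := ham m hm a ha
    have h5 : |(fun _ : ℕ => (0 : ℤ)) m + (a : ℤ) * m| = (a : ℤ) * m := by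
      show |(0 : ℤ) + (a : ℤ) * m| = (a : ℤ) * m
      rw [zero_add, abs_of_nonneg (by positivity : (0 : ℤ) ≤ (a : ℤ) * m)]
    rw [h5]
    push_cast
    linarith
  -- the height of the values
  have hcR : ∀ m ∈ Icc 1 x, |s m| + (x : ℤ) * R ≤ ((J * H0 : ℕ) : ℤ) := by
    intro m hm
    have hsm := hs m hm
    have h3 : ((|s m| : ℤ) : ℝ) + (x : ℝ) * R ≤ X := by
      have h4 : (x : ℝ) * R ≤ x * (3 * (B * L ^ K)) := mul_le_mul_of_nonneg_left hR1 hx0.le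
      have h5 : (x : ℝ) * (3 * (B * L ^ K)) = 3 * (B * x * L ^ K) := by ring
      linarith
    rw [← hXd]
    exact_mod_cast h3
  have hKc : ((x * Q0 : ℕ) : ℝ) ^ 2 ≤ H0 / Λ ^ B' := by
    rw [le_div_iff₀ (by positivity)]
    refine le_trans ?_ hH4
    rw [le_div_iff₀ (hLp _)]
    push_cast
    calc ((x : ℝ) * Q0) ^ 2 * Λ ^ B' * L ^ K3 ≤ ((x : ℝ) * L ^ C0) ^ 2 * ((K + 4) * L) ^ B' * L ^ K3 := by gcongr
      _ = x ^ 2 * (L ^ C0 * L ^ C0 * (((K : ℝ) + 4) ^ B' * L ^ B') * L ^ K3) := by rw [mul_pow, mul_pow]; ring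
      _ ≤ x ^ 2 * (L ^ C0 * L ^ C0 * (L * L ^ B') * L ^ K3) := by
          have h3 : ((K : ℝ) + 4) ^ B' ≤ L := by
            have h3 := hKp B' (by omega)
            have h4 : (0 : ℝ) < ((K : ℝ) + 4) ^ B' := by positivity
            linarith
          gcongr
      _ = x ^ 2 * L ^ (2 * C0 + K3 + B' + 1) := by
          rw [show 2 * C0 + K3 + B' + 1 = C0 + C0 + K3 + B' + 1 by ring]
          simp only [pow_succ L (C0 + C0 + K3 + B'), pow_add L (C0 + C0 + K3) B', pow_add L (C0 + C0) K3, pow_add L C0 C0]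
          ring
      _ ≤ x ^ 2 * D := by gcongr
      _ ≤ 4 * (D * x ^ 2) := by
          have : (0 : ℝ) < D * x ^ 2 := by positivity
          linarith
  have hMF : ∀ n, n ≤ J * H0 → |F n| ≤ Λ := fun n _ => (hF1 n).trans (by linarith)
  -- the major arcs
  set S : ℝ := (1 + 7 * (2 * R + 1) * (L ^ C0 / (x * D))) * (2 *
      (J * (Q0 * X / Λ ^ U1 + x * Q0 * Λ) + (H0 * (1 + L) + x * Q0) * Λ)) with hSd
  have hmajor : ∀ θ, Maj Q0 Q θ → ∑ m ∈ Icc 1 x, |w m| * ‖Gh (GF F s R) R m θ‖ ≤ S := by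
    intro θ hθ
    obtain ⟨q, hq, u, _, hqu⟩ := hθ
    rw [mem_Icc] at hq
    have hq1 : (1 : ℝ) ≤ q := by exact_mod_cast hq.1
    have hδ : |θ - (u : ℝ) / q| ≤ L ^ C0 / (x * D) := by
      refine hqu.trans ?_
      rw [div_le_div_iff₀ (by positivity) (by positivity), one_mul]
      rw [div_le_iff₀ (hLp _)] at hQb
      have h3 : (Q : ℝ) + 1 ≤ q * (Q + 1) := le_mul_of_one_le_left (by positivity) hq1
      calc (x : ℝ) * D ≤ (Q + 1) * L ^ C0 := hQb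
        _ ≤ (q * (Q + 1)) * L ^ C0 := by gcongr
        _ = _ := by ring
    have h3 := hY J H0 hYH hJ1' hJH x Q0 R
      (by rw [← hXd]; exact hKc) s hcR Λ hMF hΛ0.le w hw q u hq.1 hq.2 θ (L ^ C0 / (x * D)) hδ
    rw [← hXd, ← hΛd, ← hLd] at h3
    exact h3
  have hS0 : 0 ≤ S := by rw [hSd]; positivity
  have hSle : S ≤ B * x / L ^ A1 := by
    rw [hSd]
    exact numS K C0 K3 U1 A1 V hV hK3 hU1 L Λ J X Q0 R H0 x B D (by simpa using hKp 1 (by omega)) (hLx _ (by omega)) hΛ1 hΛ2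
      hJ0.le hJ1 hX0.le hX2 (by linarith) hQ01 (Nat.cast_nonneg _) hR1 (Nat.cast_nonneg _) hH3 hxB hD0 hBD
  have habs := absV x D B R Q0 Q hQ0n hQ1 (fun _ => (0 : ℤ)) (GF F s R) (fun m r hr => by
    unfold GF
    rw [if_neg (not_le.2 hr)]) hRf hBR w hw S hmajor
  have hGG := GF_sq F hF1 s R x
  have hleft : ∑ a ∈ Icc 1 D, ∑ b ∈ Icc 1 B, (∑ m ∈ Icc 1 x, w m * F (s m + m * ((a : ℤ) * m + (b : ℤ))).toNat) ^ 2 =
      ∑ a ∈ Icc 1 D, ∑ b ∈ Icc 1 B, (∑ m ∈ Icc 1 x, w m * GF F s R m ((fun _ : ℕ => (0 : ℤ)) m + (a : ℤ) * m + (b : ℤ))) ^ 2 := by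
    refine sum_congr rfl fun a ha => sum_congr rfl fun b hb => ?_
    congr 1
    refine sum_congr rfl fun m hm => ?_
    have h0 : (fun _ : ℕ => (0 : ℤ)) m + (a : ℤ) * m + (b : ℤ) = (a : ℤ) * m + (b : ℤ) := by
      show (0 : ℤ) + (a : ℤ) * m + (b : ℤ) = (a : ℤ) * m + (b : ℤ)
      ring
    rw [h0]
    unfold GF
    rw [if_pos]
    apply hform
    have h4 := ham m hm a ha
    rw [mem_Icc] at hb
    have h5 : |(a : ℤ) * m + (b : ℤ)| = (a : ℤ) * m + b := abs_of_nonneg (by positivity)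
    rw [h5]
    have h7 : (b : ℝ) ≤ B := by exact_mod_cast hb.2
    push_cast
    linarith
  rw [hleft]
  refine habs.trans ?_
  have hlogQ0 : 0 ≤ Real.log Q := Real.log_nonneg hQ1r
  have hρ0 : 0 ≤ 39 * (x : ℝ) * D / Q0 + 39 * D + 3 * x * (1 + Real.log Q) + 3 * Q * (1 + Real.log Q) := by positivity
  have hGG2 : ∑ m ∈ Icc 1 x, ∑ r ∈ Icc (-(R : ℤ)) R, GF F s R m r ^ 2 ≤ x * ((2 * R + 1) * Λ ^ 2) := by
    refine hGG.trans ?_
    have hΛ2' : 1 ≤ Λ ^ 2 := one_le_pow₀ (by linarith)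
    apply mul_le_mul_of_nonneg_left _ hx0.le
    exact le_mul_of_one_le_right (by positivity) hΛ2'
  have h3 := mul_le_mul_of_nonneg_left hGG2 hρ0
  have h4 := numV K U C0 A1 hC0 hA1 L Λ Q0 Q R x B D S (by simpa using hKp 2 (by omega)) (hLx _ (by omega)) hDC0 hΛ0.le
    hΛ2 hQ0r hQ02 hQ01 hQ1r hQa hQb hlogQ hR1 hR2 (Nat.cast_nonneg _) hB1 hDB hBD hS0 hSle
  linarith


end Pool.Agent.Y868.TD
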