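import Pool.Agent.Y868.TD.M3
import Pool.Agent.Y868.TC.S1

/-! The Liouville function: absolute values, and systems. -/

set_option autoImplicit false

namespace Pool.Agent.Y868.TD

open Finset Filter
open Pool.Agent.H373R2.T7
open Pool.Agent.Y868.TA Pool.Agent.Y868.TE
open Pool.Agent.Y868.TC (bx bx_card fiber_count)

/-- the Liouville function on the integers -/
noncomputable def lam (n : ℤ) : ℝ := if n = 0 then 0 else (-1) ^ ArithmeticFunction.cardFactors n.natAbs

lemma lam_split (n : ℤ) : lam n = lio n.toNat + lio (-n).toNat := by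
  unfold lam
  rcases lt_trichotomy n 0 with h | h | h
  · rw [if_neg h.ne, Int.toNat_of_nonpos h.le, lio_zero, zero_add]
    have h1 : (-n).toNat = n.natAbs := by omega
    rw [h1, lio_ne (by omega)]
  · subst h; simp [lio_zero]
  · have h2 : (-n).toNat = 0 := Int.toNat_of_nonpos (by omega)
    rw [if_neg h.ne', h2, lio_zero, add_zero]
    have h1 : n.toNat = n.natAbs := by omega
    rw [h1, lio_ne (by omega)]

lemma lam_abs (n : ℤ) : |lam n| ≤ 1 := by
  unfold lam
  split_ifs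
  · simp
  · rw [abs_pow, abs_neg, abs_one, one_pow]

/-- **One polynomial, absolute values.** -/
theorem winL (U K : ℕ) : ∃ C x0 : ℕ, ∀ x : ℕ, x0 ≤ x →
    ∀ D B : ℕ, Real.log x ^ C ≤ D → (D : ℝ) ≤ (x : ℝ) ^ K →
    (D : ℝ) * x ≤ B * Real.log x ^ K → (B : ℝ) ≤ D * x * Real.log x ^ K →
    ∀ s : ℕ → ℤ, (∀ m ∈ Icc 1 x, ((|s m| : ℤ) : ℝ) ≤ B * x * Real.log x ^ K) → ∀ w : ℕ → ℝ, (∀ m, |w m| ≤ 1) →
    ∃ Bad ⊆ Icc 1 D ×ˢ Icc 1 B, (Bad.card : ℝ) ≤ D * B / Real.log x ^ U ∧
      ∀ a ∈ Icc 1 D, ∀ b ∈ Icc 1 B, (a, b) ∉ Bad → ∀ u v : ℕ, u ≤ v → v ≤ x →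
        |∑ m ∈ Ioc u v, w m * lam (s m + m * ((a : ℤ) * m + (b : ℤ)))| ≤ x / Real.log x ^ U := by
  classical
  obtain ⟨C, x0, h0⟩ := windowsF lio lio_zero lio_abs bv_all (U + 1) (K + 2)
  obtain ⟨n1, h1⟩ := ev_L' 10
  refine ⟨C, max x0 (max n1 1), fun x hx D B hD1 hD2 hDB hBD s hs w hw => ?_⟩
  have hx0 : x0 ≤ x := (le_max_left _ _).trans hx
  have a1 := h1 x (((le_max_left _ _).trans (le_max_right _ _)).trans hx)
  have hx1 : 1 ≤ x := ((le_max_right _ _).trans (le_max_right _ _)).trans hx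
  set L := Real.log x with hL
  have hL1 : 1 ≤ L := by linarith
  have hL0 : 0 < L := by linarith
  have hLp : ∀ n : ℕ, 0 < L ^ n := fun n => by positivity
  have hLp1 : ∀ n : ℕ, 1 ≤ L ^ n := fun n => one_le_pow₀ hL1
  have hxr : (1 : ℝ) ≤ x := by exact_mod_cast hx1
  have hxp : (0 : ℝ) < x := by linarith
  have hDr : (1 : ℝ) ≤ D := (hLp1 _).trans hD1
  have hBn : 1 ≤ B := by
    rcases Nat.eq_zero_or_pos B with h | h
    · rw [h] at hDB
      push_cast at hDB
      have : 0 < (D : ℝ) * x := by positivity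
      linarith
    · exact h
  have hBr : (1 : ℝ) ≤ B := by exact_mod_cast hBn
  have hKK : L ^ K ≤ L ^ (K + 2) := pow_le_pow_right₀ hL1 (by omega)
  have g1 : (D : ℝ) ≤ (x : ℝ) ^ (K + 2) := hD2.trans (pow_le_pow_right₀ hxr (by omega))
  have g2 : (D : ℝ) * x ≤ B * L ^ (K + 2) := hDB.trans (mul_le_mul_of_nonneg_left hKK (by positivity))
  have g3 : (B : ℝ) ≤ D * x * L ^ (K + 2) := hBD.trans (mul_le_mul_of_nonneg_left hKK (by positivity))
  have g4 : ∀ m ∈ Icc 1 x, ((|s m| : ℤ) : ℝ) ≤ B * x * L ^ (K + 2) := fun m hm =>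
    (hs m hm).trans (mul_le_mul_of_nonneg_left hKK (by positivity))
  set s' : ℕ → ℤ := fun m => -(s m) - ((D : ℤ) + 1) * m ^ 2 - ((B : ℤ) + 1) * m with hs'
  have g5 : ∀ m ∈ Icc 1 x, ((|s' m| : ℤ) : ℝ) ≤ B * x * L ^ (K + 2) := by
    intro m hm
    have hsm := hs m hm
    rw [mem_Icc] at hm
    have hmx : (m : ℝ) ≤ x := by exact_mod_cast hm.2
    have hm0 : (0 : ℝ) ≤ m := Nat.cast_nonneg _
    have h3 : |s' m| ≤ |s m| + ((D : ℤ) + 1) * m ^ 2 + ((B : ℤ) + 1) * m := by
      rw [hs']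
      simp only
      rw [abs_le]
      have h4 := neg_abs_le (s m)
      have h5 := le_abs_self (s m)
      have h6 : (0 : ℤ) ≤ ((D : ℤ) + 1) * m ^ 2 := by positivity
      have h7 : (0 : ℤ) ≤ ((B : ℤ) + 1) * m := by positivity
      constructor <;> linarith
    have h4 : ((|s' m| : ℤ) : ℝ) ≤ ((|s m| : ℤ) : ℝ) + ((D : ℝ) + 1) * m ^ 2 + ((B : ℝ) + 1) * m := by exact_mod_cast h3
    have h5 : ((D : ℝ) + 1) * m ^ 2 ≤ 2 * (B * x * L ^ K) := by
      have e1 : (m : ℝ) ^ 2 ≤ (x : ℝ) ^ 2 := pow_le_pow_left₀ hm0 hmx 2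
      calc ((D : ℝ) + 1) * m ^ 2 ≤ (2 * (D : ℝ)) * (x : ℝ) ^ 2 := mul_le_mul (by linarith) e1 (by positivity) (by positivity)
        _ = 2 * ((D : ℝ) * x * x) := by ring
        _ ≤ 2 * ((B : ℝ) * L ^ K * x) := by
            apply mul_le_mul_of_nonneg_left _ (by norm_num)
            exact mul_le_mul_of_nonneg_right hDB hxp.le
        _ = _ := by ring
    have h6 : ((B : ℝ) + 1) * m ≤ 2 * (B * x * L ^ K) := by
      calc ((B : ℝ) + 1) * m ≤ (2 * (B : ℝ)) * x := mul_le_mul (by linarith) hmx hm0 (by positivity)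
        _ = 2 * ((B : ℝ) * x * 1) := by ring
        _ ≤ 2 * (B * x * L ^ K) := by
            apply mul_le_mul_of_nonneg_left _ (by norm_num)
            exact mul_le_mul_of_nonneg_left (hLp1 K) (by positivity)
    have h7 : 5 * (B * x * L ^ K) ≤ B * x * L ^ (K + 2) := by
      have h8 : L ^ (K + 2) = L ^ K * (L * L) := by ring
      rw [h8]
      have h9 : 0 < (B : ℝ) * x * L ^ K := by positivity
      have h10 : 5 ≤ L * L := by nlinarith
      calc 5 * (B * x * L ^ K) ≤ (L * L) * (B * x * L ^ K) := mul_le_mul_of_nonneg_right h10 h9.le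
        _ = _ := by ring
    linarith
  obtain ⟨Bad1, hB1a, hB1b, hB1c⟩ := h0 x hx0 D B hD1 g1 g2 g3 s g4 w hw
  obtain ⟨Bad2, hB2a, hB2b, hB2c⟩ := h0 x hx0 D B hD1 g1 g2 g3 s' g5 w hw
  refine ⟨Bad1 ∪ Bad2.image (fun p => (D + 1 - p.1, B + 1 - p.2)), ?_, ?_, ?_⟩
  · apply union_subset hB1a
    intro p hp
    rw [mem_image] at hp
    obtain ⟨q, hq, rfl⟩ := hp
    have h3 := hB2a hq
    rw [mem_product, mem_Icc, mem_Icc] at h3 ⊢
    simp only
    omega
  · have h3 : ((#(Bad1 ∪ Bad2.image (fun p => (D + 1 - p.1, B + 1 - p.2))) : ℕ) : ℝ) ≤ (#Bad1 : ℝ) + #Bad2 := by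
      exact_mod_cast (card_union_le _ _).trans (Nat.add_le_add_left card_image_le _)
    refine h3.trans ?_
    have h4 : (D : ℝ) * B / L ^ (U + 1) = (1 / L) * (D * B / L ^ U) := by
      rw [pow_succ]
      field_simp
    have h5 : (1 / L) ≤ 1 / 2 := one_div_le_one_div_of_le (by norm_num) (by linarith)
    have h6 : (1 / L) * (D * B / L ^ U) ≤ (1 / 2) * ((D : ℝ) * B / L ^ U) :=
      mul_le_mul_of_nonneg_right h5 (by positivity)
    rw [h4] at hB1b hB2b
    linarith
  · intro a ha b hb hab u v huv hvx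
    rw [mem_union, not_or] at hab
    have ha' : D + 1 - a ∈ Icc 1 D := by rw [mem_Icc] at ha ⊢; omega
    have hb' : B + 1 - b ∈ Icc 1 B := by rw [mem_Icc] at hb ⊢; omega
    have hn2 : (D + 1 - a, B + 1 - b) ∉ Bad2 := by
      intro h3
      apply hab.2
      rw [mem_image]
      refine ⟨_, h3, ?_⟩
      rw [mem_Icc] at ha hb
      ext
      · simp only; omega
      · simp only; omega
    have e1 := hB1c a ha b hb hab.1 u v huv hvx
    have e2 := hB2c _ ha' _ hb' hn2 u v huv hvx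
    have e3 : ∑ m ∈ Ioc u v, w m * lam (s m + m * ((a : ℤ) * m + (b : ℤ))) =
        ∑ m ∈ Ioc u v, w m * lio (s m + m * ((a : ℤ) * m + (b : ℤ))).toNat +
        ∑ m ∈ Ioc u v, w m * lio (s' m + m * (((D + 1 - a : ℕ) : ℤ) * m + ((B + 1 - b : ℕ) : ℤ))).toNat := by
      rw [← sum_add_distrib]
      refine sum_congr rfl fun m _ => ?_
      rw [lam_split, mul_add]
      congr 3
      rw [mem_Icc] at ha hb
      congr 1
      rw [hs']
      simp only
      push_cast [Nat.cast_sub (show a ≤ D + 1 by omega), Nat.cast_sub (show b ≤ B + 1 by omega)]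
      ring
    rw [e3]
    refine (abs_add_le _ _).trans ?_
    have h4 : (x : ℝ) / L ^ (U + 1) = (1 / L) * (x / L ^ U) := by
      rw [pow_succ]
      field_simp
    have h5 : (1 / L) ≤ 1 / 2 := one_div_le_one_div_of_le (by norm_num) (by linarith)
    have h6 : (1 / L) * (x / L ^ U) ≤ (1 / 2) * ((x : ℝ) / L ^ U) :=
      mul_le_mul_of_nonneg_right h5 (by positivity)
    rw [h4] at e1 e2
    linarith

/-- the values of the members of the system -/
def fl {k : ℕ} (s : Fin k → ℕ → ℤ) (e : Fin k → ℕ × ℕ) (i : Fin k) (m : ℕ) : ℤ :=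
  s i m + m * (((e i).1 : ℤ) * m + ((e i).2 : ℤ))

/-- **Systems.** -/
theorem sysL (k U K : ℕ) : ∃ C x0 : ℕ, ∀ x : ℕ, x0 ≤ x →
    ∀ D B : ℕ, Real.log x ^ C ≤ D → (D : ℝ) ≤ (x : ℝ) ^ K →
    (D : ℝ) * x ≤ B * Real.log x ^ K → (B : ℝ) ≤ D * x * Real.log x ^ K →
    ∀ s : Fin k → ℕ → ℤ, (∀ i, ∀ m ∈ Icc 1 x, ((|s i m| : ℤ) : ℝ) ≤ B * x * Real.log x ^ K) →
    ∀ N : ℕ, (N : ℝ) ≤ Real.log x ^ K → ∀ w : ℕ → ℕ → ℝ, (∀ t m, |w t m| ≤ 1) →
    ∃ Bad ⊆ bx D B k, (#Bad : ℝ) ≤ ((D : ℝ) * B) ^ k / Real.log x ^ U ∧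
      ∀ e ∈ bx D B k, e ∉ Bad → ∀ t ∈ range N, ∀ I : Finset (Fin k), I.Nonempty → ∀ u v : ℕ, u ≤ v → v ≤ x →
        |∑ m ∈ Ioc u v, w t m * ∏ i ∈ I, lam (fl s e i m)| ≤ x / Real.log x ^ U := by
  classical
  obtain ⟨C, x0, h0⟩ := winL (U + K + 1) K
  obtain ⟨n1, h1⟩ := ev_L' (2 ^ k + 10)
  refine ⟨C, max x0 (max n1 1), fun x hx D B hD1 hD2 hDB hBD s hs N hN w hw => ?_⟩
  have hx0 : x0 ≤ x := (le_max_left _ _).trans hx
  have a1 := h1 x (((le_max_left _ _).trans (le_max_right _ _)).trans hx)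
  have hx1 : 1 ≤ x := ((le_max_right _ _).trans (le_max_right _ _)).trans hx
  set L := Real.log x with hL
  have h2k : (0 : ℝ) < 2 ^ k := by positivity
  have hL1 : 1 ≤ L := by linarith
  have hL0 : 0 < L := by linarith
  have hLp : ∀ n : ℕ, 0 < L ^ n := fun n => by positivity
  have hLp1 : ∀ n : ℕ, 1 ≤ L ^ n := fun n => one_le_pow₀ hL1
  have hxr : (1 : ℝ) ≤ x := by exact_mod_cast hx1
  have hxp : (0 : ℝ) < x := by linarith
  have hDr : (1 : ℝ) ≤ D := (hLp1 _).trans hD1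
  have hDn : 1 ≤ D := by exact_mod_cast hDr
  have hBn : 1 ≤ B := by
    rcases Nat.eq_zero_or_pos B with h | h
    · rw [h] at hDB
      push_cast at hDB
      have : 0 < (D : ℝ) * x := by positivity
      linarith
    · exact h
  have hBr : (1 : ℝ) ≤ B := by exact_mod_cast hBn
  have hDB0 : (0 : ℝ) < D * B := by positivity
  set G : ℕ → Finset (Fin k) → (Fin k → ℕ × ℕ) → Prop := fun t I e => ∀ u v : ℕ, u ≤ v → v ≤ x →
      |∑ m ∈ Ioc u v, w t m * ∏ i ∈ I, lam (fl s e i m)| ≤ x / L ^ (U + K + 1) with hG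
  set BadJ : ℕ → Finset (Fin k) → Finset (Fin k → ℕ × ℕ) := fun t I => (bx D B k).filter (fun e => ¬ G t I e) with hBadJ
  have hcount : ∀ t : ℕ, ∀ I : Finset (Fin k), I.Nonempty → (#(BadJ t I) : ℝ) ≤ ((D : ℝ) * B) ^ k / L ^ (U + K + 1) := by
    intro t I hI
    obtain ⟨j, hj⟩ := hI
    obtain ⟨M, hM⟩ : ∃ M : ℕ, M = ⌊(D : ℝ) * B / L ^ (U + K + 1)⌋₊ := ⟨_, rfl⟩
    have hM1 : (M : ℝ) ≤ D * B / L ^ (U + K + 1) := by rw [hM]; exact Nat.floor_le (by positivity)
    have h5 := fiber_count D B k hDn hBn j (BadJ t I) (filter_subset _ _) M ?_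
    · have h6 : (#(BadJ t I) : ℝ) * (D * B) ≤ M * ((D : ℝ) * B) ^ k := by exact_mod_cast h5
      have h7 : (#(BadJ t I) : ℝ) * (D * B) ≤ (((D : ℝ) * B) ^ k / L ^ (U + K + 1)) * (D * B) := by
        calc (#(BadJ t I) : ℝ) * (D * B) ≤ M * ((D : ℝ) * B) ^ k := h6
          _ ≤ (D * B / L ^ (U + K + 1)) * ((D : ℝ) * B) ^ k := mul_le_mul_of_nonneg_right hM1 (by positivity)
          _ = _ := by ring
      exact le_of_mul_le_mul_right h7 hDB0
    · intro e _
      obtain ⟨Bd, hBd1, hBd2, hBd3⟩ := h0 x hx0 D B hD1 hD2 hDB hBD (s j) (hs j)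
        (fun m => w t m * ∏ i ∈ I.erase j, lam (fl s e i m)) (by
          intro m
          rw [abs_mul, abs_prod]
          exact mul_le_one₀ (hw t m) (prod_nonneg fun _ _ => abs_nonneg _)
            (prod_le_one (fun _ _ => abs_nonneg _) (fun i _ => lam_abs _)))
      have h6 : (Icc 1 D ×ˢ Icc 1 B).filter (fun q => Function.update e j q ∈ BadJ t I) ⊆ Bd := by
        intro q hq
        rw [mem_filter, mem_product] at hq
        by_contra hcon
        have h7 := hq.2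
        rw [hBadJ, mem_filter] at h7
        apply h7.2
        intro u v huv hvx
        have h8 := hBd3 q.1 hq.1.1 q.2 hq.1.2 hcon u v huv hvx
        have h9 : ∑ m ∈ Ioc u v, w t m * ∏ i ∈ I, lam (fl s (Function.update e j q) i m) =
            ∑ m ∈ Ioc u v, (w t m * ∏ i ∈ I.erase j, lam (fl s e i m)) * lam (s j m + m * ((q.1 : ℤ) * m + (q.2 : ℤ))) := by
          refine sum_congr rfl fun m _ => ?_
          rw [← mul_prod_erase I _ hj]
          have h10 : ∏ i ∈ I.erase j, lam (fl s (Function.update e j q) i m) = ∏ i ∈ I.erase j, lam (fl s e i m) := by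
            refine prod_congr rfl fun i hi => ?_
            unfold fl
            rw [Function.update_of_ne (mem_erase.1 hi).1]
          have h11 : fl s (Function.update e j q) j m = s j m + m * ((q.1 : ℤ) * m + (q.2 : ℤ)) := by
            unfold fl
            rw [Function.update_self]
          rw [h10, h11]
          ring
        rw [h9]
        exact h8
      have h7 : #((Icc 1 D ×ˢ Icc 1 B).filter (fun q => Function.update e j q ∈ BadJ t I)) ≤ #Bd := card_le_card h6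
      refine h7.trans ?_
      rw [hM]
      exact Nat.le_floor hBd2
  refine ⟨(range N).biUnion (fun t => ((univ : Finset (Finset (Fin k))).filter (fun I => I.Nonempty)).biUnion (BadJ t)), ?_, ?_, ?_⟩
  · intro e he
    rw [mem_biUnion] at he
    obtain ⟨t, _, he⟩ := he
    rw [mem_biUnion] at he
    obtain ⟨I, _, he⟩ := he
    exact (mem_filter.1 he).1
  · have h3 : ∀ t, (#(((univ : Finset (Finset (Fin k))).filter (fun I => I.Nonempty)).biUnion (BadJ t)) : ℝ) ≤
        2 ^ k * (((D : ℝ) * B) ^ k / L ^ (U + K + 1)) := by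
      intro t
      calc (#(((univ : Finset (Finset (Fin k))).filter (fun I => I.Nonempty)).biUnion (BadJ t)) : ℝ) ≤
          ∑ I ∈ (univ : Finset (Finset (Fin k))).filter (fun I => I.Nonempty), (#(BadJ t I) : ℝ) := by
            exact_mod_cast card_biUnion_le
        _ ≤ ∑ I ∈ (univ : Finset (Finset (Fin k))).filter (fun I => I.Nonempty), ((D : ℝ) * B) ^ k / L ^ (U + K + 1) :=
            sum_le_sum fun I hI => hcount t I (mem_filter.1 hI).2
        _ = (#((univ : Finset (Finset (Fin k))).filter (fun I => I.Nonempty)) : ℝ) * (((D : ℝ) * B) ^ k / L ^ (U + K + 1)) := by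
            rw [sum_const, nsmul_eq_mul]
        _ ≤ _ := by
            apply mul_le_mul_of_nonneg_right _ (by positivity)
            have h4 := card_filter_le (univ : Finset (Finset (Fin k))) (fun I => I.Nonempty)
            rw [card_univ, Fintype.card_finset, Fintype.card_fin] at h4
            exact_mod_cast h4
    calc (#((range N).biUnion (fun t => ((univ : Finset (Finset (Fin k))).filter (fun I => I.Nonempty)).biUnion (BadJ t))) : ℝ) ≤
        ∑ t ∈ range N, (#(((univ : Finset (Finset (Fin k))).filter (fun I => I.Nonempty)).biUnion (BadJ t)) : ℝ) := by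
          exact_mod_cast card_biUnion_le
      _ ≤ ∑ _t ∈ range N, 2 ^ k * (((D : ℝ) * B) ^ k / L ^ (U + K + 1)) := sum_le_sum fun t _ => h3 t
      _ = N * (2 ^ k * (((D : ℝ) * B) ^ k / L ^ (U + K + 1))) := by rw [sum_const, card_range, nsmul_eq_mul]
      _ ≤ L ^ K * (2 ^ k * (((D : ℝ) * B) ^ k / L ^ (U + K + 1))) := mul_le_mul_of_nonneg_right hN (by positivity)
      _ = (2 ^ k / L) * (((D : ℝ) * B) ^ k / L ^ U) := by
          rw [pow_succ L (U + K), pow_add L U K]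
          have := (hLp K).ne'
          have := (hLp U).ne'
          field_simp
      _ ≤ 1 * (((D : ℝ) * B) ^ k / L ^ U) := by
          apply mul_le_mul_of_nonneg_right _ (by positivity)
          rw [div_le_one hL0]
          linarith
      _ = _ := one_mul _
  · intro e he hbad t ht I hI u v huv hvx
    have h3 : G t I e := by
      by_contra hcon
      apply hbad
      rw [mem_biUnion]
      refine ⟨t, ht, ?_⟩
      rw [mem_biUnion]
      exact ⟨I, mem_filter.2 ⟨mem_univ _, hI⟩, mem_filter.2 ⟨he, hcon⟩⟩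
    refine (h3 u v huv hvx).trans ?_
    apply div_le_div_of_nonneg_left hxp.le (hLp _)
    exact pow_le_pow_right₀ hL1 (by omega)

end Pool.Agent.Y868.TD
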