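import Pool.Agent.Y868.TD.R1

/-! Sign patterns of the Liouville function at systems. -/

set_option autoImplicit false

namespace Pool.Agent.Y868.TD

open Finset Filter
open Pool.Agent.H373R2.T7
open Pool.Agent.Y868.TA Pool.Agent.Y868.TE
open Pool.Agent.Y868.TC (bx bx_card fiber_count)

lemma lam_zero : lam 0 = 0 := by simp [lam]

lemma lam_ne (n : ℤ) (h : n ≠ 0) : lam n = 1 ∨ lam n = -1 := by
  unfold lam
  rw [if_neg h]
  exact neg_one_pow_eq_or ℝ _

lemma ind_expand {k : ℕ} (l ε : Fin k → ℝ) (hl : ∀ i, l i = 1 ∨ l i = -1) (hε : ∀ i, ε i = 1 ∨ ε i = -1) :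
    (if ∀ i, l i = ε i then (1 : ℝ) else 0) = (1 / 2) ^ k * ∑ I : Finset (Fin k), ∏ i ∈ I, ε i * l i := by
  classical
  have h1 : ∑ I : Finset (Fin k), ∏ i ∈ I, ε i * l i = ∏ i, (1 + ε i * l i) := by
    rw [Finset.prod_one_add, Finset.powerset_univ]
  rw [h1]
  have h2 : (1 / 2 : ℝ) ^ k = ∏ _i : Fin k, (1 / 2 : ℝ) := by simp
  rw [h2, ← prod_mul_distrib]
  split_ifs with h
  · symm
    apply prod_eq_one
    intro i _
    rw [h i]
    rcases hε i with h3 | h3 <;> rw [h3] <;> norm_num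
  · push Not at h
    obtain ⟨i, hi⟩ := h
    symm
    apply prod_eq_zero (mem_univ i)
    rcases hε i with h3 | h3 <;> rcases hl i with h4 | h4
    · exfalso; rw [h3, h4] at hi; exact hi rfl
    · rw [h3, h4]; norm_num
    · rw [h3, h4]; norm_num
    · exfalso; rw [h3, h4] at hi; exact hi rfl

lemma ind_bound {k : ℕ} (l ε : Fin k → ℝ) (hl : ∀ i, |l i| ≤ 1) (hε : ∀ i, ε i = 1 ∨ ε i = -1) :
    |(1 / 2) ^ k * ∑ I : Finset (Fin k), ∏ i ∈ I, ε i * l i| ≤ 1 := by
  classical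
  rw [abs_mul, abs_of_nonneg (by positivity : (0 : ℝ) ≤ (1 / 2) ^ k)]
  have h1 : |∑ I : Finset (Fin k), ∏ i ∈ I, ε i * l i| ≤ 2 ^ k := by
    calc |∑ I : Finset (Fin k), ∏ i ∈ I, ε i * l i| ≤ ∑ I : Finset (Fin k), |∏ i ∈ I, ε i * l i| := abs_sum_le_sum_abs _ _
      _ ≤ ∑ _I : Finset (Fin k), (1 : ℝ) := by
          refine sum_le_sum fun I _ => ?_
          rw [abs_prod]
          refine prod_le_one (fun _ _ => abs_nonneg _) (fun i _ => ?_)
          rw [abs_mul]
          have h2 : |ε i| = 1 := by rcases hε i with h3 | h3 <;> rw [h3] <;> simp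
          rw [h2, one_mul]
          exact hl i
      _ = 2 ^ k := by simp
  calc (1 / 2 : ℝ) ^ k * |∑ I : Finset (Fin k), ∏ i ∈ I, ε i * l i| ≤ (1 / 2) ^ k * 2 ^ k :=
        mul_le_mul_of_nonneg_left h1 (by positivity)
    _ = 1 := by rw [← mul_pow]; norm_num

/-- few zeros -/
lemma zeros (D B x : ℕ) (s : ℕ → ℤ) (T : ℝ) (hT : 0 < T) :
    (#((Icc 1 D ×ˢ Icc 1 B).filter (fun q : ℕ × ℕ =>
      T < (#((Icc 1 x).filter (fun m : ℕ => s m + m * ((q.1 : ℤ) * m + (q.2 : ℤ)) = 0)) : ℝ))) : ℝ) ≤ x * D / T := by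
  classical
  set S := (Icc 1 D ×ˢ Icc 1 B).filter (fun q : ℕ × ℕ =>
      T < (#((Icc 1 x).filter (fun m : ℕ => s m + m * ((q.1 : ℤ) * m + (q.2 : ℤ)) = 0)) : ℝ)) with hS
  rw [le_div_iff₀ hT]
  calc (#S : ℝ) * T = ∑ _q ∈ S, T := by rw [sum_const, nsmul_eq_mul]
    _ ≤ ∑ q ∈ S, (#((Icc 1 x).filter (fun m : ℕ => s m + m * ((q.1 : ℤ) * m + (q.2 : ℤ)) = 0)) : ℝ) :=
        sum_le_sum fun q hq => (mem_filter.1 hq).2.le
    _ ≤ ∑ q ∈ Icc 1 D ×ˢ Icc 1 B, (#((Icc 1 x).filter (fun m : ℕ => s m + m * ((q.1 : ℤ) * m + (q.2 : ℤ)) = 0)) : ℝ) :=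
        sum_le_sum_of_subset_of_nonneg (filter_subset _ _) (fun _ _ _ => Nat.cast_nonneg _)
    _ = ∑ m ∈ Icc 1 x, (#((Icc 1 D ×ˢ Icc 1 B).filter (fun q : ℕ × ℕ => s m + m * ((q.1 : ℤ) * m + (q.2 : ℤ)) = 0)) : ℝ) := by
        simp_rw [card_filter]
        push_cast
        exact sum_comm
    _ ≤ ∑ _m ∈ Icc 1 x, (D : ℝ) := by
        refine sum_le_sum fun m hm => ?_
        have h1 : #((Icc 1 D ×ˢ Icc 1 B).filter (fun q : ℕ × ℕ => s m + m * ((q.1 : ℤ) * m + (q.2 : ℤ)) = 0)) ≤ #(Icc 1 D) := by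
          apply card_le_card_of_injOn (fun q => q.1)
          · intro q hq
            rw [mem_coe, mem_filter, mem_product] at hq
            exact hq.1.1
          · intro q hq q' hq' heq
            rw [mem_coe, mem_filter, mem_product] at hq hq'
            simp only at heq
            have hm0 : (m : ℤ) ≠ 0 := by
              rw [mem_Icc] at hm
              have := hm.1
              positivity
            have h2 : (m : ℤ) * ((q.1 : ℤ) * m + (q.2 : ℤ)) = m * ((q'.1 : ℤ) * m + (q'.2 : ℤ)) := by linarith [hq.2, hq'.2]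
            have h3 := mul_left_cancel₀ hm0 h2
            rw [heq] at h3
            have h4 : (q.2 : ℤ) = q'.2 := by linarith
            have h5 : q.2 = q'.2 := by exact_mod_cast h4
            exact Prod.ext heq h5
        rw [Nat.card_Icc, Nat.add_sub_cancel] at h1
        exact_mod_cast h1
    _ = x * D := by rw [sum_const, Nat.card_Icc, nsmul_eq_mul, Nat.add_sub_cancel]

lemma evp (j : ℕ) : ∃ x0 : ℕ, ∀ x : ℕ, x0 ≤ x → Real.log x ^ j ≤ x := by
  have h1 : (fun x : ℝ => Real.log x ^ j) =o[atTop] (id : ℝ → ℝ) := Real.isLittleO_pow_log_id_atTop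
  have h2 := h1.bound (show (0 : ℝ) < 1 by norm_num)
  have h3 := (tendsto_natCast_atTop_atTop (R := ℝ)).eventually h2
  obtain ⟨x0, hx0⟩ := Filter.eventually_atTop.1 h3
  refine ⟨x0, fun x hx => ?_⟩
  have h4 := hx0 x hx
  rw [one_mul, id, Real.norm_of_nonneg (Nat.cast_nonneg x : (0 : ℝ) ≤ (x : ℝ))] at h4
  exact (le_abs_self _).trans h4

/-- **Sign patterns.** -/
theorem patL (k U K : ℕ) : ∃ C x0 : ℕ, ∀ x : ℕ, x0 ≤ x →
    ∀ D B : ℕ, Real.log x ^ C ≤ D → (D : ℝ) ≤ (x : ℝ) ^ K →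
    (D : ℝ) * x ≤ B * Real.log x ^ K → (B : ℝ) ≤ D * x * Real.log x ^ K →
    ∀ s : Fin k → ℕ → ℤ, (∀ i, ∀ m ∈ Icc 1 x, ((|s i m| : ℤ) : ℝ) ≤ B * x * Real.log x ^ K) →
    ∀ N : ℕ, (N : ℝ) ≤ Real.log x ^ K → ∀ w : ℕ → ℕ → ℝ, (∀ t m, |w t m| ≤ 1) →
    ∃ Bad ⊆ bx D B k, (#Bad : ℝ) ≤ ((D : ℝ) * B) ^ k / Real.log x ^ U ∧
      ∀ e ∈ bx D B k, e ∉ Bad → ∀ t ∈ range N, ∀ ε : Fin k → ℝ, (∀ i, ε i = 1 ∨ ε i = -1) → ∀ u v : ℕ, u ≤ v → v ≤ x →
        |∑ m ∈ (Ioc u v).filter (fun m => ∀ i, lam (fl s e i m) = ε i), w t m - (1 / 2) ^ k * ∑ m ∈ Ioc u v, w t m| ≤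
          x / Real.log x ^ U := by
  classical
  obtain ⟨C, x0, h0⟩ := sysL k (U + 1) K
  obtain ⟨n1, h1⟩ := ev_L' (k + 10)
  obtain ⟨n2, h2⟩ := evp (2 * U + 6 + K)
  refine ⟨C, max x0 (max n1 (max n2 1)), fun x hx D B hD1 hD2 hDB hBD s hs N hN w hw => ?_⟩
  have hx0 : x0 ≤ x := (le_max_left _ _).trans hx
  have a1 := h1 x (((le_max_left _ _).trans (le_max_right _ _)).trans hx)
  have a2 := h2 x (((le_max_left _ _).trans ((le_max_right _ _).trans (le_max_right _ _))).trans hx)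
  have hx1 : 1 ≤ x := (((le_max_right _ _).trans ((le_max_right _ _).trans (le_max_right _ _)))).trans hx
  obtain ⟨Bad1, hB1, hB2, hB3⟩ := h0 x hx0 D B hD1 hD2 hDB hBD s hs N hN w hw
  set L := Real.log x with hL
  have hk0 : (0 : ℝ) ≤ k := Nat.cast_nonneg _
  have hL1 : 1 ≤ L := by linarith
  have hL0 : 0 < L := by linarith
  have hLp : ∀ n : ℕ, 0 < L ^ n := fun n => by positivity
  have hLp1 : ∀ n : ℕ, 1 ≤ L ^ n := fun n => one_le_pow₀ hL1
  have hxr : (1 : ℝ) ≤ x := by exact_mod_cast hx1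
  have hxp : (0 : ℝ) < x := by linarith
  have hDr : (1 : ℝ) ≤ D := (hLp1 _).trans hD1
  have hDn : 1 ≤ D := by exact_mod_cast hDr
  have hBn : 1 ≤ B := by
    rcases Nat.eq_zero_or_pos B with h | h
    · rw [h] at hDB
      push_cast at hDB
      have : 0 < (D : ℝ) * x := by positivity
      linarith
    · exact h
  have hBr : (1 : ℝ) ≤ B := by exact_mod_cast hBn
  have hDB0 : (0 : ℝ) < D * B := by positivity
  -- zeros
  set T : ℝ := x / L ^ (U + 2) with hT
  have hT0 : 0 < T := by positivity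
  set Zj : Fin k → Finset (Fin k → ℕ × ℕ) := fun j => (bx D B k).filter (fun e =>
    T < (#((Icc 1 x).filter (fun m : ℕ => fl s e j m = 0)) : ℝ)) with hZj
  have hcount : ∀ j, (#(Zj j) : ℝ) ≤ ((D : ℝ) * B) ^ k / L ^ (U + 2) := by
    intro j
    obtain ⟨M, hM⟩ : ∃ M : ℕ, M = ⌊(x : ℝ) * D / T⌋₊ := ⟨_, rfl⟩
    have hM1 : (M : ℝ) ≤ x * D / T := by rw [hM]; exact Nat.floor_le (by positivity)
    have h5 := fiber_count D B k hDn hBn j (Zj j) (filter_subset _ _) M ?_
    · have h6 : (#(Zj j) : ℝ) * (D * B) ≤ M * ((D : ℝ) * B) ^ k := by exact_mod_cast h5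
      have h7 : (M : ℝ) ≤ (D * B) / L ^ (U + 2) := by
        refine hM1.trans ?_
        rw [hT]
        have e1 : (x : ℝ) * D / (x / L ^ (U + 2)) = D * L ^ (U + 2) := by
          have := (hLp (U + 2)).ne'
          field_simp
        rw [e1, le_div_iff₀ (hLp _), mul_assoc, ← pow_add]
        apply mul_le_mul_of_nonneg_left _ (by positivity)
        have e2 : L ^ (U + 2 + (U + 2)) * L ^ K ≤ B * L ^ K := by
          calc L ^ (U + 2 + (U + 2)) * L ^ K = L ^ (2 * U + 4 + K) := by rw [← pow_add]; congr 1; ring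
            _ ≤ L ^ (2 * U + 6 + K) := pow_le_pow_right₀ hL1 (by omega)
            _ ≤ x := a2
            _ = 1 * x := (one_mul _).symm
            _ ≤ D * x := mul_le_mul_of_nonneg_right hDr hxp.le
            _ ≤ _ := hDB
        exact le_of_mul_le_mul_right e2 (hLp K)
      have h8 : (#(Zj j) : ℝ) * (D * B) ≤ (((D : ℝ) * B) ^ k / L ^ (U + 2)) * (D * B) := by
        calc (#(Zj j) : ℝ) * (D * B) ≤ M * ((D : ℝ) * B) ^ k := h6
          _ ≤ ((D * B) / L ^ (U + 2)) * ((D : ℝ) * B) ^ k := mul_le_mul_of_nonneg_right h7 (by positivity)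
          _ = _ := by ring
      exact le_of_mul_le_mul_right h8 hDB0
    · intro e _
      have h6 : (Icc 1 D ×ˢ Icc 1 B).filter (fun q => Function.update e j q ∈ Zj j) ⊆
          (Icc 1 D ×ˢ Icc 1 B).filter (fun q : ℕ × ℕ =>
            T < (#((Icc 1 x).filter (fun m : ℕ => s j m + m * ((q.1 : ℤ) * m + (q.2 : ℤ)) = 0)) : ℝ)) := by
        intro q hq
        rw [mem_filter] at hq ⊢
        refine ⟨hq.1, ?_⟩
        have h7 := hq.2
        rw [hZj, mem_filter] at h7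
        have h8 := h7.2
        have h9 : (fun m : ℕ => fl s (Function.update e j q) j m = 0) =
            (fun m : ℕ => s j m + m * ((q.1 : ℤ) * m + (q.2 : ℤ)) = 0) := by
          funext m
          unfold fl
          rw [Function.update_self]
        simp only [fl, Function.update_self] at h8
        exact h8
      refine (card_le_card h6).trans ?_
      rw [hM]
      exact Nat.le_floor (zeros D B x (s j) T hT0)
  refine ⟨Bad1 ∪ univ.biUnion Zj, ?_, ?_, ?_⟩
  · apply union_subset hB1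
    intro e he
    rw [mem_biUnion] at he
    obtain ⟨j, _, he⟩ := he
    exact (mem_filter.1 he).1
  · have h3 : ((#(Bad1 ∪ univ.biUnion Zj) : ℕ) : ℝ) ≤ (#Bad1 : ℝ) + ∑ j, (#(Zj j) : ℝ) := by
      exact_mod_cast (card_union_le _ _).trans (Nat.add_le_add_left card_biUnion_le _)
    refine h3.trans ?_
    have h4 : ∑ j, (#(Zj j) : ℝ) ≤ k * (((D : ℝ) * B) ^ k / L ^ (U + 2)) := by
      calc ∑ j, (#(Zj j) : ℝ) ≤ ∑ _j : Fin k, ((D : ℝ) * B) ^ k / L ^ (U + 2) := sum_le_sum fun j _ => hcount j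
        _ = _ := by rw [sum_const, card_univ, Fintype.card_fin, nsmul_eq_mul]
    have h5 : ((D : ℝ) * B) ^ k / L ^ (U + 2) = (1 / (L * L)) * (((D : ℝ) * B) ^ k / L ^ U) := by
      rw [pow_add L U 2]
      have := (hLp U).ne'
      field_simp
    have h6 : ((D : ℝ) * B) ^ k / L ^ (U + 1) = (1 / L) * (((D : ℝ) * B) ^ k / L ^ U) := by
      rw [pow_add L U 1, pow_one]
      have := (hLp U).ne'
      field_simp
    have h7 : 0 ≤ ((D : ℝ) * B) ^ k / L ^ U := by positivity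
    rw [h6] at hB2
    rw [h5] at h4
    have h8 : (1 / L) ≤ 1 / 2 := one_div_le_one_div_of_le (by norm_num) (by linarith)
    have h9 : (k : ℝ) * (1 / (L * L)) ≤ 1 / 2 := by
      rw [mul_one_div, div_le_div_iff₀ (by positivity) (by norm_num)]
      nlinarith
    calc (#Bad1 : ℝ) + ∑ j, (#(Zj j) : ℝ) ≤ (1 / L) * (((D : ℝ) * B) ^ k / L ^ U) + k * ((1 / (L * L)) * (((D : ℝ) * B) ^ k / L ^ U)) := by linarith
      _ = ((1 / L) + k * (1 / (L * L))) * (((D : ℝ) * B) ^ k / L ^ U) := by ring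
      _ ≤ 1 * (((D : ℝ) * B) ^ k / L ^ U) := mul_le_mul_of_nonneg_right (by linarith) h7
      _ = _ := one_mul _
  · intro e he hbad t ht ε hε u v huv hvx
    rw [mem_union, not_or, mem_biUnion] at hbad
    obtain ⟨hb1, hb2⟩ := hbad
    have hz : ∀ j, (#((Icc 1 x).filter (fun m : ℕ => fl s e j m = 0)) : ℝ) ≤ T := by
      intro j
      by_contra hcon
      push Not at hcon
      exact hb2 ⟨j, mem_univ _, mem_filter.2 ⟨he, hcon⟩⟩
    set Z := (Ioc u v).filter (fun m => ∃ j, fl s e j m = 0) with hZ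
    have hZc : (#Z : ℝ) ≤ k * T := by
      have e1 : Z ⊆ univ.biUnion (fun j => (Icc 1 x).filter (fun m : ℕ => fl s e j m = 0)) := by
        intro m hm
        rw [hZ, mem_filter, mem_Ioc] at hm
        obtain ⟨hm1, j, hj⟩ := hm
        rw [mem_biUnion]
        exact ⟨j, mem_univ _, mem_filter.2 ⟨mem_Icc.2 ⟨by omega, by omega⟩, hj⟩⟩
      have e2 : #Z ≤ ∑ j, #((Icc 1 x).filter (fun m : ℕ => fl s e j m = 0)) := (card_le_card e1).trans card_biUnion_le
      calc (#Z : ℝ) ≤ ∑ j, (#((Icc 1 x).filter (fun m : ℕ => fl s e j m = 0)) : ℝ) := by exact_mod_cast e2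
        _ ≤ ∑ _j : Fin k, T := sum_le_sum fun j _ => hz j
        _ = _ := by rw [sum_const, card_univ, Fintype.card_fin, nsmul_eq_mul]
    set g : ℕ → ℝ := fun m => (1 / 2) ^ k * ∑ I : Finset (Fin k), ∏ i ∈ I, ε i * lam (fl s e i m) with hg
    have e3 : ∑ m ∈ (Ioc u v).filter (fun m => ∀ i, lam (fl s e i m) = ε i), w t m =
        ∑ m ∈ Ioc u v, w t m * (if ∀ i, lam (fl s e i m) = ε i then (1 : ℝ) else 0) := by
      rw [sum_filter]
      refine sum_congr rfl fun m _ => ?_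
      split_ifs <;> simp
    have e4 : |∑ m ∈ Ioc u v, w t m * (if ∀ i, lam (fl s e i m) = ε i then (1 : ℝ) else 0) - ∑ m ∈ Ioc u v, w t m * g m| ≤ #Z := by
      rw [← sum_sub_distrib]
      calc |∑ m ∈ Ioc u v, (w t m * (if ∀ i, lam (fl s e i m) = ε i then (1 : ℝ) else 0) - w t m * g m)| ≤
          ∑ m ∈ Ioc u v, |w t m * (if ∀ i, lam (fl s e i m) = ε i then (1 : ℝ) else 0) - w t m * g m| := abs_sum_le_sum_abs _ _
        _ ≤ ∑ m ∈ Ioc u v, (if ∃ j, fl s e j m = 0 then (1 : ℝ) else 0) := by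
            refine sum_le_sum fun m _ => ?_
            rw [← mul_sub, abs_mul]
            split_ifs with c1 c2 c2
            · exfalso
              obtain ⟨j, hj⟩ := c2
              have e5 := c1 j
              rw [hj, lam_zero] at e5
              rcases hε j with h | h <;> rw [h] at e5 <;> norm_num at e5
            · have e5 := ind_expand (fun i => lam (fl s e i m)) ε (fun i => lam_ne _ (fun h => c2 ⟨i, h⟩)) hε
              rw [if_pos c1] at e5
              rw [hg]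
              simp only
              rw [← e5]
              simp
            · rw [zero_sub, abs_neg]
              exact mul_le_one₀ (hw t m) (abs_nonneg _) (ind_bound _ ε (fun i => lam_abs _) hε)
            · have e5 := ind_expand (fun i => lam (fl s e i m)) ε (fun i => lam_ne _ (fun h => c2 ⟨i, h⟩)) hε
              rw [if_neg c1] at e5
              rw [hg]
              simp only
              rw [← e5]
              simp
        _ = #Z := by rw [hZ, card_filter]; push_cast; rfl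
    have e5 : ∑ m ∈ Ioc u v, w t m * g m = (1 / 2) ^ k * ∑ I : Finset (Fin k), (∏ i ∈ I, ε i) * ∑ m ∈ Ioc u v, w t m * ∏ i ∈ I, lam (fl s e i m) := by
      rw [hg]
      simp only
      simp_rw [prod_mul_distrib, mul_sum]
      rw [sum_comm]
      refine sum_congr rfl fun I _ => sum_congr rfl fun m _ => ?_
      ring
    have e6 : ∑ I : Finset (Fin k), (∏ i ∈ I, ε i) * ∑ m ∈ Ioc u v, w t m * ∏ i ∈ I, lam (fl s e i m) =
        ∑ m ∈ Ioc u v, w t m + ∑ I ∈ univ.erase (∅ : Finset (Fin k)), (∏ i ∈ I, ε i) * ∑ m ∈ Ioc u v, w t m * ∏ i ∈ I, lam (fl s e i m) := by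
      rw [← add_sum_erase univ _ (mem_univ (∅ : Finset (Fin k)))]
      simp
    have e7 : |∑ I ∈ univ.erase (∅ : Finset (Fin k)), (∏ i ∈ I, ε i) * ∑ m ∈ Ioc u v, w t m * ∏ i ∈ I, lam (fl s e i m)| ≤
        2 ^ k * (x / L ^ (U + 1)) := by
      calc |∑ I ∈ univ.erase (∅ : Finset (Fin k)), (∏ i ∈ I, ε i) * ∑ m ∈ Ioc u v, w t m * ∏ i ∈ I, lam (fl s e i m)| ≤
          ∑ I ∈ univ.erase (∅ : Finset (Fin k)), |(∏ i ∈ I, ε i) * ∑ m ∈ Ioc u v, w t m * ∏ i ∈ I, lam (fl s e i m)| := abs_sum_le_sum_abs _ _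
        _ ≤ ∑ I ∈ univ.erase (∅ : Finset (Fin k)), (x / L ^ (U + 1) : ℝ) := by
            refine sum_le_sum fun I hI => ?_
            rw [abs_mul, abs_prod]
            have h5 : ∏ i ∈ I, |ε i| = 1 := by
              apply prod_eq_one
              intro i _
              rcases hε i with h | h <;> rw [h] <;> simp
            rw [h5, one_mul]
            exact hB3 e he hb1 t ht I (nonempty_iff_ne_empty.2 (mem_erase.1 hI).1) u v huv hvx
        _ ≤ ∑ _I : Finset (Fin k), (x / L ^ (U + 1) : ℝ) :=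
            sum_le_sum_of_subset_of_nonneg (erase_subset _ _) (fun _ _ _ => by positivity)
        _ = _ := by rw [sum_const, card_univ, Fintype.card_finset, Fintype.card_fin, nsmul_eq_mul]; push_cast; ring
    rw [e3]
    set A1 := ∑ m ∈ Ioc u v, w t m * (if ∀ i, lam (fl s e i m) = ε i then (1 : ℝ) else 0) with hA1
    set A2 := ∑ m ∈ Ioc u v, w t m * g m with hA2
    set A3 := ∑ I ∈ univ.erase (∅ : Finset (Fin k)), (∏ i ∈ I, ε i) * ∑ m ∈ Ioc u v, w t m * ∏ i ∈ I, lam (fl s e i m) with hA3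
    have e8 : A1 - (1 / 2) ^ k * ∑ m ∈ Ioc u v, w t m = (A1 - A2) + (1 / 2) ^ k * A3 := by
      rw [e5, e6]; ring
    rw [e8]
    refine (abs_add_le _ _).trans ?_
    have e9 : |(1 / 2) ^ k * A3| ≤ x / L ^ (U + 1) := by
      rw [abs_mul, abs_of_nonneg (by positivity : (0 : ℝ) ≤ (1 / 2) ^ k)]
      calc (1 / 2 : ℝ) ^ k * |A3| ≤ (1 / 2) ^ k * (2 ^ k * (x / L ^ (U + 1))) := mul_le_mul_of_nonneg_left e7 (by positivity)
        _ = ((1 / 2 : ℝ) * 2) ^ k * (x / L ^ (U + 1)) := by rw [mul_pow]; ring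
        _ = _ := by norm_num
    have f1 : (x : ℝ) / L ^ (U + 1) = (1 / L) * (x / L ^ U) := by
      rw [pow_add L U 1, pow_one]
      have := (hLp U).ne'
      field_simp
    have f2 : T = (1 / (L * L)) * (x / L ^ U) := by
      rw [hT, pow_add L U 2]
      have := (hLp U).ne'
      field_simp
    have f3 : (1 / L) ≤ 1 / 2 := one_div_le_one_div_of_le (by norm_num) (by linarith)
    have f4 : (k : ℝ) * (1 / (L * L)) ≤ 1 / 2 := by
      rw [mul_one_div, div_le_div_iff₀ (by positivity) (by norm_num)]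
      nlinarith
    have f5 : 0 ≤ (x : ℝ) / L ^ U := by positivity
    calc |A1 - A2| + |(1 / 2) ^ k * A3| ≤ k * T + x / L ^ (U + 1) := add_le_add (e4.trans hZc) e9
      _ = (k * (1 / (L * L)) + 1 / L) * (x / L ^ U) := by rw [f1, f2]; ring
      _ ≤ 1 * (x / L ^ U) := mul_le_mul_of_nonneg_right (by linarith) f5
      _ = _ := one_mul _

end Pool.Agent.Y868.TD
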